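import Mathlib

/-!
# Structured projections in the arithmetic Kakeya problem: definitions and row statements

Lines are `(u, d)`, the slice at time `t` is `u + t * d`, the direction is `d`.
-/

open scoped Pointwise

namespace Pool.SPJ

/-- `n`-fold sumset -/
def ns : ℕ → Finset ℚ → Finset ℚ
  | 0, _ => {0}
  | n + 1, P => ns n P + P

/-- `n P - n P` -/
def Sn (n : ℕ) (P : Finset ℚ) : Finset ℚ := ns n P - ns n P

/-- `(n P - n P) + c * (n P - n P)` -/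
def Wf (c : ℚ) (n : ℕ) (P : Finset ℚ) : Finset ℚ := Sn n P + (Sn n P).image (fun x => c * x)

/-- the slice at time `t` of a family of lines -/
def pt {ι : Type*} (u d : ι → ℚ) (t : ℚ) (a : ι) : ℚ := u a + t * d a

/-- the slice at time `t` of an integral line -/
def ptz (t : ℚ) (l : ℤ × ℤ) : ℚ := (l.1 : ℚ) + t * (l.2 : ℚ)

/-- Row PLU: Pluennecke with one dilate -/
def PluStmt : Prop :=
  ∀ (c : ℚ) (n : ℕ), ∃ C : ℕ, ∀ (K : ℝ) (P : Finset ℚ), 1 ≤ K → P.Nonempty →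
    ((P + P).card : ℝ) ≤ K * P.card → ((Wf c n P).card : ℝ) ≤ K ^ C * P.card

/-- Row CEL: Ruzsa covering with disjoint cells, and the overlap bound -/
def CelStmt : Prop :=
  ∀ (D P : Finset ℚ), P.Nonempty → ∃ F ⊆ D, (∀ d ∈ D, ∃ a ∈ F, d - a ∈ P - P) ∧
    ∀ (c y : ℚ) (E : Finset ℚ), c ≠ 0 →
      (F.filter (fun a => y - c * a ∈ E)).card * P.card ≤
        (E + P.image (fun p => -c * p)).card

/-- Row INT: intersections of sumsets -/
def IntStmt : Prop :=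
  ∀ (X Y P W : Finset ℚ), (X ∩ Y).card * (P.card * W.card) ≤
    ((P - P) ∩ (W - W)).card * ((X + P).card * (Y + W).card)

/-- Row CNT: double counting -/
def CntStmt : Prop :=
  ∀ (F : Finset ℚ) (B : ℚ → Finset ℚ) (G : Finset ℚ) (k : ℝ), 0 ≤ k → (∀ a ∈ F, B a ⊆ G) →
    (∀ y ∈ G, ((F.filter (fun a => y ∈ B a)).card : ℝ) ≤ k) →
    (∑ a ∈ F, ((B a).card : ℝ)) ≤ k * G.card

/-- Row HSH: every family of integral lines can be hashed into `[0, 8 n)²`, where `n` is the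
number of its directions -/
def HshStmt : Prop :=
  ∀ T : Finset ℚ, ∃ C : ℕ, ∀ B : Finset (ℤ × ℤ), B.Nonempty → ∃ B' : Finset (ℤ × ℤ),
    (∀ l ∈ B', 0 ≤ l.1 ∧ l.1 < 8 * ((B.image Prod.snd).card : ℤ) ∧
      0 ≤ l.2 ∧ l.2 < 8 * ((B.image Prod.snd).card : ℤ)) ∧
    (B.image Prod.snd).card ≤ 2 * (B'.image Prod.snd).card ∧
    ∀ t ∈ T, (B'.image (ptz t)).card ≤ C * (B.image (ptz t)).card

/-- Row PRD: adding an arithmetic progression along the direction killed at time `s` -/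
def PrdStmt : Prop :=
  ∀ (A : Finset (ℤ × ℤ)) (T R : Finset ℚ) (P : ℚ → Finset ℚ) (s : ℚ) (w : ℕ), 1 ≤ w →
    (∀ r ∈ R, (P r).Nonempty ∧ A.image (ptz r) ⊆ P r) →
    ∃ (A' : Finset (ℤ × ℤ)) (P' : ℚ → Finset ℚ),
      w * (A.image Prod.snd).card ≤ (A'.image Prod.snd).card ∧
      (∀ t ∈ T, (A'.image (ptz t)).card ≤ w * (A.image (ptz t)).card) ∧
      ∀ r ∈ R, (P' r).Nonempty ∧ A'.image (ptz r) ⊆ P' r ∧ (P' r).card ≤ w * (P r).card ∧
        (r = s → (P' r).card ≤ (P r).card) ∧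
        ∀ K : ℝ, ((P r + P r).card : ℝ) ≤ K * (P r).card →
          ((P' r + P' r).card : ℝ) ≤ 2 * K * (P' r).card

end Pool.SPJ
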