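import Pool.Agent.H93.SPJ.Defs

/-! membership facts for `Sn` and `Wf` -/

open scoped Pointwise

namespace Pool.SPJ

theorem ns_add93 (a b : ℕ) (P : Finset ℚ) : ns (a + b) P = ns a P + ns b P := by
  induction b with
  | zero => simp only [ns, Nat.add_zero, Finset.singleton_zero, add_zero]
  | succ b ih => rw [Nat.add_succ]; simp only [ns]; rw [ih, add_assoc]

theorem ns_nonempty {P : Finset ℚ} (h : P.Nonempty) (n : ℕ) : (ns n P).Nonempty := by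
  induction n with
  | zero => exact ⟨0, by simp [ns]⟩
  | succ n ih => simp only [ns]; exact ih.add h

theorem zero_mem_Sn {P : Finset ℚ} (h : P.Nonempty) (n : ℕ) : (0 : ℚ) ∈ Sn n P := by
  obtain ⟨x, hx⟩ := ns_nonempty h n
  exact Finset.mem_sub.2 ⟨x, hx, x, hx, sub_self x⟩

theorem sub_mem_Sn_one {P : Finset ℚ} {p q : ℚ} (hp : p ∈ P) (hq : q ∈ P) : p - q ∈ Sn 1 P := by
  refine Finset.mem_sub.2 ⟨p, ?_, q, ?_, rfl⟩ <;>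
    simpa only [ns, Finset.singleton_zero, zero_add] using ‹_›

theorem Sn_one (P : Finset ℚ) : Sn 1 P = P - P := by
  simp only [Sn, ns, Finset.singleton_zero, zero_add]

theorem add_mem_Sn {P : Finset ℚ} {a b : ℕ} {x y : ℚ} (hx : x ∈ Sn a P) (hy : y ∈ Sn b P) :
    x + y ∈ Sn (a + b) P := by
  obtain ⟨x1, h1, x2, h2, rfl⟩ := Finset.mem_sub.1 hx
  obtain ⟨y1, h3, y2, h4, rfl⟩ := Finset.mem_sub.1 hy
  refine Finset.mem_sub.2 ⟨x1 + y1, ?_, x2 + y2, ?_, by ring⟩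
  · rw [ns_add93]; exact Finset.add_mem_add h1 h3
  · rw [ns_add93]; exact Finset.add_mem_add h2 h4

theorem neg_mem_Sn {P : Finset ℚ} {a : ℕ} {x : ℚ} (hx : x ∈ Sn a P) : -x ∈ Sn a P := by
  obtain ⟨x1, h1, x2, h2, rfl⟩ := Finset.mem_sub.1 hx
  exact Finset.mem_sub.2 ⟨x2, h2, x1, h1, by ring⟩

theorem Sn_mono {P : Finset ℚ} (h : P.Nonempty) {a b : ℕ} (hab : a ≤ b) : Sn a P ⊆ Sn b P := by
  intro x hx
  obtain ⟨k, rfl⟩ := Nat.exists_eq_add_of_le hab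
  simpa using add_mem_Sn hx (zero_mem_Sn h k)

theorem mem_Wf {c : ℚ} {n : ℕ} {P : Finset ℚ} {z : ℚ} :
    z ∈ Wf c n P ↔ ∃ x ∈ Sn n P, ∃ y ∈ Sn n P, z = x + c * y := by
  unfold Wf
  rw [Finset.mem_add]
  constructor
  · rintro ⟨x, hx, w, hw, rfl⟩
    obtain ⟨y, hy, rfl⟩ := Finset.mem_image.1 hw
    exact ⟨x, hx, y, hy, rfl⟩
  · rintro ⟨x, hx, y, hy, rfl⟩
    exact ⟨x, hx, c * y, Finset.mem_image_of_mem _ hy, rfl⟩

theorem add_mem_Wf {c : ℚ} {P : Finset ℚ} {a b : ℕ} {x y : ℚ} (hx : x ∈ Wf c a P)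
    (hy : y ∈ Wf c b P) : x + y ∈ Wf c (a + b) P := by
  obtain ⟨x1, h1, x2, h2, rfl⟩ := mem_Wf.1 hx
  obtain ⟨y1, h3, y2, h4, rfl⟩ := mem_Wf.1 hy
  exact mem_Wf.2 ⟨x1 + y1, add_mem_Sn h1 h3, x2 + y2, add_mem_Sn h2 h4, by ring⟩

theorem neg_mem_Wf {c : ℚ} {P : Finset ℚ} {a : ℕ} {x : ℚ} (hx : x ∈ Wf c a P) :
    -x ∈ Wf c a P := by
  obtain ⟨x1, h1, x2, h2, rfl⟩ := mem_Wf.1 hx
  exact mem_Wf.2 ⟨-x1, neg_mem_Sn h1, -x2, neg_mem_Sn h2, by ring⟩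

theorem sub_mem_Wf {c : ℚ} {P : Finset ℚ} {a b : ℕ} {x y : ℚ} (hx : x ∈ Wf c a P)
    (hy : y ∈ Wf c b P) : x - y ∈ Wf c (a + b) P := by
  rw [sub_eq_add_neg]; exact add_mem_Wf hx (neg_mem_Wf hy)

theorem Wf_mono {c : ℚ} {P : Finset ℚ} (h : P.Nonempty) {a b : ℕ} (hab : a ≤ b) :
    Wf c a P ⊆ Wf c b P := by
  intro z hz
  obtain ⟨x, hx, y, hy, rfl⟩ := mem_Wf.1 hz
  exact mem_Wf.2 ⟨x, Sn_mono h hab hx, y, Sn_mono h hab hy, rfl⟩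

theorem Sn_subset_Wf {c : ℚ} {P : Finset ℚ} (h : P.Nonempty) (a : ℕ) : Sn a P ⊆ Wf c a P :=
  fun x hx => mem_Wf.2 ⟨x, hx, 0, zero_mem_Sn h a, by ring⟩

theorem mul_mem_Wf {c : ℚ} {P : Finset ℚ} (h : P.Nonempty) {a : ℕ} {x : ℚ} (hx : x ∈ Sn a P) :
    c * x ∈ Wf c a P :=
  mem_Wf.2 ⟨0, zero_mem_Sn h a, x, hx, by ring⟩

/-- translates do not change the card -/
theorem card_le_of_translate {S W : Finset ℚ} (x : ℚ) (h : ∀ y ∈ S, y - x ∈ W) :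
    S.card ≤ W.card := by
  refine Finset.card_le_card_of_injOn (fun y => y - x) (fun y hy => h y hy) ?_
  intro a _ b _ hab
  simpa using hab

end Pool.SPJ
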