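import Pool.Agent.H93.SPJ.Alg

/-! the converse theorem -/

open scoped Pointwise

namespace Pool.SPJ

/-- iteration of PRD over a set of times -/
theorem iter (hPr : PrdStmt) (T R : Finset ℚ) (w : ℕ) (hw : 1 ≤ w) (A : Finset (ℤ × ℤ))
    (P : ℚ → Finset ℚ) (K : ℝ)
    (hA : ∀ r ∈ R, (P r).Nonempty ∧ A.image (ptz r) ⊆ P r ∧
      ((P r + P r).card : ℝ) ≤ K * (P r).card) (R1 : Finset ℚ) (hR1 : R1 ⊆ R) :
    ∃ (A' : Finset (ℤ × ℤ)) (P' : ℚ → Finset ℚ),
      w ^ R1.card * (A.image Prod.snd).card ≤ (A'.image Prod.snd).card ∧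
      (∀ t ∈ T, (A'.image (ptz t)).card ≤ w ^ R1.card * (A.image (ptz t)).card) ∧
      ∀ r ∈ R, (P' r).Nonempty ∧ A'.image (ptz r) ⊆ P' r ∧
        (P' r).card ≤ w ^ R1.card * (P r).card ∧
        (r ∈ R1 → (P' r).card * w ≤ w ^ R1.card * (P r).card) ∧
        ((P' r + P' r).card : ℝ) ≤ 2 ^ R1.card * K * (P' r).card := by
  classical
  induction R1 using Finset.induction_on with
  | empty =>
    refine ⟨A, P, by simp, by simp, fun r hr => ⟨(hA r hr).1, (hA r hr).2.1, by simp, by simp, ?_⟩⟩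
    simpa using (hA r hr).2.2
  | insert s R1 hs ih =>
    obtain ⟨A', P', h1, h2, h3⟩ := ih ((Finset.subset_insert _ _).trans hR1)
    obtain ⟨A2, P2, g1, g2, g3⟩ := hPr A' T R P' s w hw (fun r hr => ⟨(h3 r hr).1, (h3 r hr).2.1⟩)
    rw [Finset.card_insert_of_notMem hs]
    refine ⟨A2, P2, ?_, ?_, ?_⟩
    · calc w ^ (R1.card + 1) * (A.image Prod.snd).card
          = w * (w ^ R1.card * (A.image Prod.snd).card) := by ring
        _ ≤ w * (A'.image Prod.snd).card := Nat.mul_le_mul_left _ h1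
        _ ≤ _ := g1
    · intro t ht
      calc (A2.image (ptz t)).card ≤ w * (A'.image (ptz t)).card := g2 t ht
        _ ≤ w * (w ^ R1.card * (A.image (ptz t)).card) := Nat.mul_le_mul_left _ (h2 t ht)
        _ = _ := by ring
    · intro r hr
      obtain ⟨k1, k2, k3, k4, k5⟩ := g3 r hr
      obtain ⟨l1, l2, l3, l4, l5⟩ := h3 r hr
      refine ⟨k1, k2, ?_, ?_, ?_⟩
      · calc (P2 r).card ≤ w * (P' r).card := k3
          _ ≤ w * (w ^ R1.card * (P r).card) := Nat.mul_le_mul_left _ l3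
          _ = _ := by ring
      · intro hr1
        rcases Finset.mem_insert.1 hr1 with h | h
        · calc (P2 r).card * w ≤ (P' r).card * w := Nat.mul_le_mul_right _ (k4 h)
            _ ≤ (w ^ R1.card * (P r).card) * w := Nat.mul_le_mul_right _ l3
            _ = _ := by ring
        · calc (P2 r).card * w ≤ (w * (P' r).card) * w := Nat.mul_le_mul_right _ k3
            _ = w * ((P' r).card * w) := by ring
            _ ≤ w * (w ^ R1.card * (P r).card) := Nat.mul_le_mul_left _ (l4 h)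
            _ = _ := by ring
      · refine (k5 _ l5).trans (le_of_eq ?_)
        rw [pow_succ]; ring

/-- the interval set containing the slices of lines in a box -/
noncomputable def Bx (r : ℚ) (n : ℕ) : Finset ℚ :=
  (Finset.Icc (-(|r.num| * (8 * n))) ((r.den + |r.num|) * (8 * n)) : Finset ℤ).image
    (fun z : ℤ => (z : ℚ) / r.den)

theorem Bx_card (r : ℚ) (n : ℕ) :
    (Bx r n).card = ((r.den + 2 * |r.num|) * (8 * n) + 1 : ℤ).toNat := by
  unfold Bx
  rw [Finset.card_image_of_injective]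
  · rw [Int.card_Icc]; congr 1; ring
  · intro a b h
    have hd : (r.den : ℚ) ≠ 0 := by exact_mod_cast r.den_nz
    have := (div_left_inj' hd).1 h
    exact_mod_cast this

theorem Bx_double (r : ℚ) (n : ℕ) : (Bx r n + Bx r n).card ≤ 2 * (Bx r n).card := by
  have hd : (r.den : ℚ) ≠ 0 := by exact_mod_cast r.den_nz
  have h1 : Bx r n + Bx r n ⊆ (Finset.Icc (2 * -(|r.num| * (8 * n)))
      (2 * ((r.den + |r.num|) * (8 * n))) : Finset ℤ).image (fun z : ℤ => (z : ℚ) / r.den) := by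
    intro x hx
    obtain ⟨a, ha, b, hb, rfl⟩ := Finset.mem_add.1 hx
    obtain ⟨a, ha', rfl⟩ := Finset.mem_image.1 ha
    obtain ⟨b, hb', rfl⟩ := Finset.mem_image.1 hb
    rw [Finset.mem_Icc] at ha' hb'
    refine Finset.mem_image.2 ⟨a + b, ?_, by push_cast; ring⟩
    rw [Finset.mem_Icc]
    constructor <;> linarith [ha'.1, ha'.2, hb'.1, hb'.2]
  refine (Finset.card_le_card h1).trans (Finset.card_image_le.trans ?_)
  rw [Int.card_Icc, Bx_card]
  have h2 : (0 : ℤ) ≤ (r.den + 2 * |r.num|) * (8 * n) := by positivity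
  have h3 : (2 * ((r.den + |r.num|) * (8 * n)) + 1 - 2 * -(|r.num| * (8 * n)) : ℤ) =
      2 * ((r.den + 2 * |r.num|) * (8 * n)) + 1 := by ring
  rw [h3]
  omega

theorem Bx_mem (r : ℚ) (n : ℕ) (l : ℤ × ℤ) (h : 0 ≤ l.1 ∧ l.1 < 8 * (n : ℤ) ∧ 0 ≤ l.2 ∧
    l.2 < 8 * (n : ℤ)) : ptz r l ∈ Bx r n := by
  obtain ⟨h1, h2, h3, h4⟩ := h
  have hd : (r.den : ℚ) ≠ 0 := by exact_mod_cast r.den_nz
  refine Finset.mem_image.2 ⟨r.den * l.1 + r.num * l.2, ?_, ?_⟩
  · rw [Finset.mem_Icc]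
    have h5 : |r.num * l.2| ≤ |r.num| * (8 * n) := by
      rw [abs_mul]
      exact mul_le_mul_of_nonneg_left (by rw [abs_of_nonneg h3]; exact h4.le) (abs_nonneg _)
    have h6 := abs_le.1 h5
    have h7 : (0 : ℤ) ≤ r.den * l.1 := by positivity
    have h8 : (r.den : ℤ) * l.1 ≤ r.den * (8 * n) :=
      mul_le_mul_of_nonneg_left h2.le (by positivity)
    constructor <;> nlinarith [h6.1, h6.2]
  · have h9 : r * r.den = r.num := Rat.mul_den_eq_num r
    unfold ptz
    rw [div_eq_iff hd]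
    push_cast
    linear_combination (-(l.2 : ℚ)) * h9

theorem Bx_card_le (r : ℚ) {n : ℕ} (hn : 1 ≤ n) :
    ((Bx r n).card : ℝ) ≤ (8 * (r.den + 2 * |(r.num : ℝ)|) + 1) * n := by
  rw [Bx_card]
  have h2 : (0 : ℤ) ≤ (r.den + 2 * |r.num|) * (8 * n) + 1 := by positivity
  have h3 : (((((r.den + 2 * |r.num|) * (8 * n) + 1 : ℤ).toNat : ℕ) : ℤ) : ℝ) =
      (r.den + 2 * |(r.num : ℝ)|) * (8 * n) + 1 := by
    rw [Int.toNat_of_nonneg h2]; push_cast; ring
  have h4 : (((((r.den + 2 * |r.num|) * (8 * n) + 1 : ℤ).toNat : ℕ)) : ℝ) =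
      (r.den + 2 * |(r.num : ℝ)|) * (8 * n) + 1 := by
    rw [← h3]; norm_cast
  rw [h4]
  have h5 : (1 : ℝ) ≤ n := by exact_mod_cast hn
  nlinarith

theorem solve_pow {n N b m C : ℝ} (hn : 0 < n) (hN : 0 < N) (hb1 : m * b < 1)
    (hC : 0 ≤ C) (h : n ≤ C * (2 * n / N) ^ (m * b) * N ^ (1 + b)) :
    n ≤ (C * 2 ^ (m * b)) ^ (1 / (1 - m * b)) * N ^ (1 + b / (1 - m * b)) := by
  have h1 : 0 < 1 - m * b := by linarith
  have h2 : (2 * n / N) ^ (m * b) = 2 ^ (m * b) * n ^ (m * b) / N ^ (m * b) := by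
    rw [Real.div_rpow (by positivity) hN.le, Real.mul_rpow (by norm_num) hn.le]
  have h3 : n ^ (1 - m * b) ≤ (C * 2 ^ (m * b)) * N ^ (1 + b - m * b) := by
    have h4 : n ^ (1 - m * b) * n ^ (m * b) = n := by
      rw [← Real.rpow_add hn]; simp
    have h5 : N ^ (1 + b - m * b) * N ^ (m * b) = N ^ (1 + b) := by
      rw [← Real.rpow_add hN]; congr 1; ring
    have h6 : (0 : ℝ) < n ^ (m * b) := Real.rpow_pos_of_pos hn _
    have h7 : (0 : ℝ) < N ^ (m * b) := Real.rpow_pos_of_pos hN _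
    refine le_of_mul_le_mul_right ?_ h6
    rw [h4]
    refine h.trans (le_of_eq ?_)
    rw [h2, ← h5]
    field_simp
  calc n = (n ^ (1 - m * b)) ^ (1 / (1 - m * b)) := by
        rw [← Real.rpow_mul hn.le, mul_one_div_cancel h1.ne', Real.rpow_one]
    _ ≤ ((C * 2 ^ (m * b)) * N ^ (1 + b - m * b)) ^ (1 / (1 - m * b)) :=
        Real.rpow_le_rpow (by positivity) h3 (by positivity)
    _ = (C * 2 ^ (m * b)) ^ (1 / (1 - m * b)) * N ^ (1 + b / (1 - m * b)) := by
        rw [Real.mul_rpow (by positivity) (by positivity), ← Real.rpow_mul hN.le]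
        congr 2
        rw [mul_one_div, show 1 + b - m * b = (1 - m * b) + b by ring, add_div,
          div_self h1.ne']

theorem converse (hH : HshStmt) (hPr : PrdStmt) (T R : Finset ℚ) (hT : T.Nonempty) (b : ℝ)
    (hb : 0 ≤ b) (hb1 : R.card * b < 1)
    (hcls : ∃ C : ℝ, ∀ (A : Finset (ℤ × ℤ)) (P : ℚ → Finset ℚ) (N : ℝ), 0 ≤ N →
      (∀ t ∈ T, ((A.image (ptz t)).card : ℝ) ≤ N) →
      (∀ r ∈ R, ((P r).card : ℝ) ≤ N ∧
        ((P r + P r).card : ℝ) ≤ (2 : ℝ) ^ (R.card + 1) * (P r).card ∧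
        A.image (ptz r) ⊆ P r) →
      ((A.image Prod.snd).card : ℝ) ≤ C * N ^ (1 + b)) :
    ∃ C : ℝ, ∀ (A : Finset (ℤ × ℤ)) (N : ℝ), 0 ≤ N →
      (∀ t ∈ T, ((A.image (ptz t)).card : ℝ) ≤ N) →
      ((A.image Prod.snd).card : ℝ) ≤ C * N ^ (1 + b / (1 - R.card * b)) := by
  classical
  obtain ⟨CH, hCH⟩ := hH T
  obtain ⟨C, hC⟩ := hcls
  rw [pow_succ] at hC
  set m := R.card with hm
  set cR : ℝ := ∑ r ∈ R, (8 * (r.den + 2 * |(r.num : ℝ)|) + 1) with hcR
  have hcR0 : 0 ≤ cR := Finset.sum_nonneg fun _ _ => by positivity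
  set c0 : ℝ := CH + cR + 1 with hc0
  have hc01 : 1 ≤ c0 := by
    have : (0 : ℝ) ≤ CH := Nat.cast_nonneg _
    linarith
  set C' : ℝ := 2 * |C| * c0 ^ (1 + b) with hC'
  have hC'0 : 0 ≤ C' := by positivity
  have h1mb : 0 < 1 - m * b := by linarith
  set Cf : ℝ := max 1 ((C' * 2 ^ (m * b)) ^ (1 / (1 - m * b))) with hCf
  refine ⟨Cf, ?_⟩
  intro B N hN hBT
  rcases B.eq_empty_or_nonempty with hB | hB
  · subst hB; simp only [Finset.image_empty, Finset.card_empty, Nat.cast_zero]; positivity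
  set n := (B.image Prod.snd).card with hn
  have hn1 : 1 ≤ n := Finset.card_pos.2 (hB.image _)
  have hn1r : (1 : ℝ) ≤ n := by exact_mod_cast hn1
  obtain ⟨t0, ht0⟩ := hT
  have hN1 : 1 ≤ N := by
    have h1 : 1 ≤ (B.image (ptz t0)).card := Finset.card_pos.2 (hB.image _)
    have h2 : (1 : ℝ) ≤ ((B.image (ptz t0)).card : ℝ) := by exact_mod_cast h1
    exact h2.trans (hBT t0 ht0)
  have hN0 : 0 < N := by linarith
  have hexp : 0 ≤ b / (1 - m * b) := by positivity
  rcases le_or_gt (n : ℝ) N with hnN | hnN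
  · calc (n : ℝ) ≤ N := hnN
      _ = 1 * N ^ (1 : ℝ) := by rw [Real.rpow_one, one_mul]
      _ ≤ Cf * N ^ (1 + b / (1 - m * b)) :=
          mul_le_mul (le_max_left _ _) (Real.rpow_le_rpow_of_exponent_le hN1 (by linarith))
            (by positivity) (by positivity)
  set w := ⌈(n : ℝ) / N⌉₊ with hw
  have hq1 : 1 < (n : ℝ) / N := (one_lt_div hN0).2 hnN
  have hw1 : 1 ≤ w := Nat.one_le_iff_ne_zero.2 (fun h => by
    have := Nat.le_ceil ((n : ℝ) / N)
    rw [← hw, h] at this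
    simp only [Nat.cast_zero] at this
    linarith)
  have hw1r : (1 : ℝ) ≤ w := by exact_mod_cast hw1
  have hwn : (n : ℝ) ≤ w * N := by
    have := Nat.le_ceil ((n : ℝ) / N)
    rw [← hw, div_le_iff₀ hN0] at this
    exact this
  have hw2 : (w : ℝ) ≤ 2 * n / N := by
    have h1 := (Nat.ceil_lt_add_one (a := (n : ℝ) / N) (by positivity)).le
    rw [← hw] at h1
    have : 2 * (n : ℝ) / N = n / N + n / N := by ring
    rw [this]; linarith
  obtain ⟨B', hB'1, hB'2, hB'3⟩ := hCH B hB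
  obtain ⟨A', P', g1, g2, g3⟩ := iter hPr T R w hw1 B' (fun r => Bx r n) 2 (by
    intro r _
    refine ⟨?_, ?_, ?_⟩
    · refine Finset.card_pos.1 ?_
      rw [Bx_card]
      have h2 : (0 : ℤ) ≤ (r.den + 2 * |r.num|) * (8 * n) := by positivity
      omega
    · intro y hy
      obtain ⟨l, hl, rfl⟩ := Finset.mem_image.1 hy
      exact Bx_mem r n l (hB'1 l hl)
    · exact_mod_cast Bx_double r n) R (le_refl _)
  set N' : ℝ := (w : ℝ) ^ m * c0 * N with hN'
  have hwm : (1 : ℝ) ≤ (w : ℝ) ^ m := one_le_pow₀ hw1r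
  have key := hC A' P' N' (by positivity) ?_ ?_
  · have h1 : ((w : ℝ) ^ m) * n ≤ C' * ((w : ℝ) ^ m) ^ (1 + b) * N ^ (1 + b) := by
      have h2 : (n : ℝ) ≤ 2 * ((B'.image Prod.snd).card : ℝ) := by exact_mod_cast hB'2
      have h3 : (w : ℝ) ^ m * ((B'.image Prod.snd).card : ℝ) ≤ ((A'.image Prod.snd).card : ℝ) := by
        exact_mod_cast g1
      calc ((w : ℝ) ^ m) * n ≤ (w : ℝ) ^ m * (2 * ((B'.image Prod.snd).card : ℝ)) :=
            mul_le_mul_of_nonneg_left h2 (by positivity)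
        _ = 2 * ((w : ℝ) ^ m * ((B'.image Prod.snd).card : ℝ)) := by ring
        _ ≤ 2 * ((A'.image Prod.snd).card : ℝ) := by linarith
        _ ≤ 2 * (C * N' ^ (1 + b)) := by linarith
        _ ≤ 2 * (|C| * N' ^ (1 + b)) := by
            have := mul_le_mul_of_nonneg_right (le_abs_self C)
              (show (0 : ℝ) ≤ N' ^ (1 + b) by positivity)
            linarith
        _ = C' * ((w : ℝ) ^ m) ^ (1 + b) * N ^ (1 + b) := by
            rw [hN', Real.mul_rpow (by positivity) hN, Real.mul_rpow (by positivity) (by positivity),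
              hC']
            ring
    have h4 : (n : ℝ) ≤ C' * ((w : ℝ) ^ m) ^ b * N ^ (1 + b) := by
      refine le_of_mul_le_mul_left ?_ (show (0 : ℝ) < (w : ℝ) ^ m by positivity)
      refine h1.trans (le_of_eq ?_)
      rw [Real.rpow_add (by positivity), Real.rpow_one]; ring
    have h5 : ((w : ℝ) ^ m) ^ b ≤ (2 * n / N) ^ ((m : ℝ) * b) := by
      rw [← Real.rpow_natCast, ← Real.rpow_mul (by positivity)]
      exact Real.rpow_le_rpow (by positivity) hw2 (by positivity)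
    have h6 : (n : ℝ) ≤ C' * (2 * n / N) ^ ((m : ℝ) * b) * N ^ (1 + b) := by
      refine h4.trans (mul_le_mul_of_nonneg_right (mul_le_mul_of_nonneg_left h5 hC'0)
        (by positivity))
    have h7 := solve_pow (by linarith) hN0 hb1 hC'0 h6
    refine h7.trans (mul_le_mul_of_nonneg_right (le_max_right _ _) (by positivity))
  · intro t ht
    have h1 : ((A'.image (ptz t)).card : ℝ) ≤ (w : ℝ) ^ m * ((B'.image (ptz t)).card : ℝ) := by
      exact_mod_cast g2 t ht
    have h2 : ((B'.image (ptz t)).card : ℝ) ≤ CH * ((B.image (ptz t)).card : ℝ) := by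
      exact_mod_cast hB'3 t ht
    have h3 : (CH : ℝ) * ((B.image (ptz t)).card : ℝ) ≤ CH * N :=
      mul_le_mul_of_nonneg_left (hBT t ht) (Nat.cast_nonneg _)
    calc ((A'.image (ptz t)).card : ℝ) ≤ (w : ℝ) ^ m * (CH * N) :=
          h1.trans (mul_le_mul_of_nonneg_left (h2.trans h3) (by positivity))
      _ ≤ (w : ℝ) ^ m * (c0 * N) := by
          refine mul_le_mul_of_nonneg_left (mul_le_mul_of_nonneg_right ?_ hN) (by positivity)
          linarith
      _ = N' := by rw [hN']; ring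
  · intro r hr
    obtain ⟨k1, k2, k3, k4, k5⟩ := g3 r hr
    refine ⟨?_, k5, k2⟩
    have hcr : (8 * (r.den + 2 * |(r.num : ℝ)|) + 1) ≤ cR :=
      Finset.single_le_sum (f := fun r : ℚ => (8 * (r.den + 2 * |(r.num : ℝ)|) + 1 : ℝ))
        (fun _ _ => by positivity) hr
    have h1 : ((P' r).card : ℝ) * w ≤ (w : ℝ) ^ m * ((Bx r n).card : ℝ) := by
      exact_mod_cast k4 hr
    have h2 := Bx_card_le r hn1
    have h3 : ((Bx r n).card : ℝ) ≤ c0 * (w * N) := by
      calc ((Bx r n).card : ℝ) ≤ (8 * (r.den + 2 * |(r.num : ℝ)|) + 1) * n := h2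
        _ ≤ c0 * n := mul_le_mul_of_nonneg_right (by
            have : (0 : ℝ) ≤ CH := Nat.cast_nonneg _
            linarith) (by positivity)
        _ ≤ c0 * (w * N) := mul_le_mul_of_nonneg_left hwn (by positivity)
    have h4 : ((P' r).card : ℝ) * w ≤ N' * w := by
      refine h1.trans ((mul_le_mul_of_nonneg_left h3 (by positivity)).trans (le_of_eq ?_))
      rw [hN']; ring
    exact le_of_mul_le_mul_right h4 (by positivity)

end Pool.SPJ
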