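import Pool.Agent.H93.SPJ.MainR
import Pool.Agent.H93.SPJ.Conv
import Pool.Agent.H22.SPJ.CNT
import Pool.Agent.H22.SPJ.PLU
import Pool.Agent.H70.SPJ.PRD
import Pool.Agent.H63.SPJ.Hsh
import Pool.Agent.H90.AK.Exponent2

/-! from times to slopes, and the final theorems -/

open scoped Pointwise

namespace Pool.SPJ

/-- the projection with slope `r` (`none` is the slope infinity) -/
def pj (r : Option ℚ) (p : ℤ × ℤ) : ℚ := r.elim (p.2 : ℚ) (fun s => (p.1 : ℚ) + s * (p.2 : ℚ))

/-- the time of a slope -/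
def tm (r : Option ℚ) : ℚ := r.elim 0 (fun s => 1 / (1 + s))

/-- the factor between a projection and a slice -/
def sc (r : Option ℚ) : ℚ := r.elim 1 (fun s => 1 + s)

/-- the slope of a time -/
def it (t : ℚ) : Option ℚ := if t = 0 then none else some (1 / t - 1)

def uu (p : ℤ × ℤ) : ℚ := (p.2 : ℚ)
def dd (p : ℤ × ℤ) : ℚ := (p.1 : ℚ) + (-1) * (p.2 : ℚ)

theorem sc_ne {r : Option ℚ} (h : r ≠ some (-1)) : sc r ≠ 0 := by
  rcases r with _ | s
  · simp [sc]
  · simp only [sc, Option.elim_some]
    intro h'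
    exact h (by rw [show s = -1 by linarith])

theorem pj_eq {r : Option ℚ} (h : r ≠ some (-1)) (p : ℤ × ℤ) :
    pj r p = sc r * pt uu dd (tm r) p := by
  have h1 := sc_ne h
  rcases r with _ | s
  · simp [pj, sc, tm, pt, uu]
  · simp only [pj, sc, tm, pt, uu, dd, Option.elim_some] at h1 ⊢
    field_simp
    ring

theorem pj_line {r : Option ℚ} (h : r ≠ some (-1)) (l : ℤ × ℤ) :
    pj r (l.1 + l.2, l.1) = sc r * ptz (tm r) l := by
  have h1 := sc_ne h
  rcases r with _ | s
  · simp [pj, sc, tm, ptz]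
  · simp only [pj, sc, tm, ptz, Option.elim_some] at h1 ⊢
    push_cast
    field_simp
    ring

theorem it_tm {r : Option ℚ} (h : r ≠ some (-1)) : it (tm r) = r := by
  have h1 := sc_ne h
  rcases r with _ | s
  · simp [it, tm]
  · simp only [sc, Option.elim_some] at h1
    have ht : tm (some s) = 1 / (1 + s) := rfl
    have ht0 : tm (some s) ≠ 0 := by rw [ht]; exact one_div_ne_zero h1
    unfold it
    rw [if_neg ht0, ht, one_div_one_div]
    congr 1
    ring

theorem image_tm_card {R : Finset (Option ℚ)} (h : some (-1) ∉ R) :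
    (R.image tm).card = R.card := by
  refine Finset.card_image_of_injOn ?_
  intro a ha b hb hab
  rw [← it_tm (r := a) (fun h' => h (h' ▸ ha)), ← it_tm (r := b) (fun h' => h (h' ▸ hb)), hab]

theorem card_pj {r : Option ℚ} (h : r ≠ some (-1)) (A : Finset (ℤ × ℤ)) :
    (A.image (pt uu dd (tm r))).card = (A.image (pj r)).card := by
  have h1 : A.image (pj r) = (A.image (pt uu dd (tm r))).image (fun x => sc r * x) := by
    rw [Finset.image_image]
    exact Finset.image_congr (fun p _ => pj_eq h p)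
  rw [h1, Finset.card_image_of_injective _ (mul_right_injective₀ (sc_ne h))]

theorem sup_le_real {α : Type*} (T : Finset α) (f : α → ℕ) {N : ℝ} (hN : 0 ≤ N)
    (h : ∀ t ∈ T, (f t : ℝ) ≤ N) : ((T.sup f : ℕ) : ℝ) ≤ N := by
  have h1 : T.sup f ≤ ⌊N⌋₊ := Finset.sup_le fun t ht => Nat.le_floor (h t ht)
  exact le_trans (by exact_mod_cast h1) (Nat.floor_le hN)

theorem double_image {c : ℚ} (hc : c ≠ 0) (P : Finset ℚ) :
    ((P.image (fun x => x * c) + P.image (fun x => x * c)).card = (P + P).card) ∧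
    (P.image (fun x => x * c)).card = P.card := by
  have hinj : Function.Injective (fun x : ℚ => x * c) := mul_left_injective₀ hc
  refine ⟨?_, Finset.card_image_of_injective _ hinj⟩
  have h1 : P.image (fun x => x * c) + P.image (fun x => x * c) =
      (P + P).image (fun x => x * c) := by
    ext z
    simp only [Finset.mem_add, Finset.mem_image]
    constructor
    · rintro ⟨_, ⟨a, ha, rfl⟩, _, ⟨b, hb, rfl⟩, rfl⟩
      exact ⟨a + b, ⟨a, ha, b, hb, rfl⟩, by ring⟩
    · rintro ⟨_, ⟨a, ha, b, hb, rfl⟩, rfl⟩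
      exact ⟨_, ⟨a, ha, rfl⟩, _, ⟨b, hb, rfl⟩, by ring⟩
  rw [h1, Finset.card_image_of_injective _ hinj]

/-- the general inequality gives the structured one -/
theorem slopes_forward (T R : Finset (Option ℚ)) (hT1 : some (-1) ∉ T) (hR1 : some (-1) ∉ R)
    (hTR : Disjoint T R) (β : ℝ) (hβ : 0 ≤ β)
    (h : ∃ C : ℝ, ∀ A : Finset (ℤ × ℤ), ((A.image (pj (some (-1)))).card : ℝ) ≤
      C * ((T.sup (fun r => (A.image (pj r)).card) : ℕ) : ℝ) ^ (1 + β)) :
    ∃ C : ℕ, 1 ≤ C ∧ ∀ K : ℝ, 1 ≤ K → ∀ (A : Finset (ℤ × ℤ)) (P : Option ℚ → Finset ℚ),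
      (∀ r ∈ R, A.image (pj r) ⊆ P r ∧ ((P r + P r).card : ℝ) ≤ K * (P r).card) →
      ((A.image (pj (some (-1)))).card : ℝ) ^ (1 + ((R.card : ℝ) - 1) * (β / (1 + β))) ≤
        (C * K) ^ C * ((T.sup (fun r => (A.image (pj r)).card) : ℕ) : ℝ) *
          ∏ r ∈ R, ((P r).card : ℝ) ^ (β / (1 + β)) := by
  classical
  have hne : ∀ {X : Finset (Option ℚ)}, some (-1) ∉ X → ∀ r ∈ X, r ≠ some (-1) :=
    fun hX r hr h' => hX (h' ▸ hr)
  obtain ⟨C, hC⟩ := h
  have hgen : ∃ C : ℝ, ∀ (A : Finset (ℤ × ℤ)) (N : ℝ), 0 ≤ N →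
      (∀ t ∈ T.image tm, ((A.image (pt uu dd t)).card : ℝ) ≤ N) →
      ((A.image dd).card : ℝ) ≤ C * N ^ (1 + β) := by
    refine ⟨|C|, fun A N hN hA => ?_⟩
    have h1 : ((T.sup (fun r => (A.image (pj r)).card) : ℕ) : ℝ) ≤ N := by
      refine sup_le_real T _ hN fun r hr => ?_
      rw [← card_pj (hne hT1 r hr)]
      exact hA _ (Finset.mem_image_of_mem _ hr)
    calc ((A.image dd).card : ℝ)
        ≤ C * ((T.sup (fun r => (A.image (pj r)).card) : ℕ) : ℝ) ^ (1 + β) := hC A
      _ ≤ |C| * ((T.sup (fun r => (A.image (pj r)).card) : ℕ) : ℝ) ^ (1 + β) :=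
          mul_le_mul_of_nonneg_right (le_abs_self C) (by positivity)
      _ ≤ |C| * N ^ (1 + β) :=
          mul_le_mul_of_nonneg_left (Real.rpow_le_rpow (Nat.cast_nonneg _) h1 (by linarith))
            (abs_nonneg _)
  have hdis : Disjoint (R.image tm) (T.image tm) := by
    rw [Finset.disjoint_left]
    intro t ht ht'
    obtain ⟨r, hr, rfl⟩ := Finset.mem_image.1 ht
    obtain ⟨r', hr', h1⟩ := Finset.mem_image.1 ht'
    have h2 : r' = r := by
      rw [← it_tm (hne hT1 r' hr'), ← it_tm (hne hR1 r hr), h1]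
    exact Finset.disjoint_left.1 hTR hr' (h2 ▸ hr)
  obtain ⟨C2, hC21, hC2⟩ := forwardR t_plu t_cel t_int t_cnt uu dd (T.image tm) β hβ hgen
    (R.image tm) hdis
  rw [image_tm_card hR1] at hC2
  refine ⟨C2, hC21, fun K hK A P hP => ?_⟩
  have h0 := hC2 K hK A (fun t => (P (it t)).image (fun x => x * (sc (it t))⁻¹))
    ((T.sup (fun r => (A.image (pj r)).card) : ℕ) : ℝ) (Nat.cast_nonneg _) (by
      intro t ht
      obtain ⟨r, hr, rfl⟩ := Finset.mem_image.1 ht
      rw [card_pj (hne hT1 r hr)]
      exact_mod_cast Finset.le_sup (f := fun r => (A.image (pj r)).card) hr) (by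
      intro t ht
      obtain ⟨r, hr, rfl⟩ := Finset.mem_image.1 ht
      have hr1 := hne hR1 r hr
      have hs := sc_ne hr1
      rw [it_tm hr1]
      obtain ⟨h1, h2⟩ := hP r hr
      obtain ⟨h3, h4⟩ := double_image (inv_ne_zero hs) (P r)
      refine ⟨?_, 0, ?_⟩
      · rw [h3, h4]; exact h2
      · intro a ha
        rw [sub_zero]
        refine Finset.mem_image.2 ⟨pj r a, h1 (Finset.mem_image_of_mem _ ha), ?_⟩
        rw [pj_eq hr1]
        field_simp)
  have hprod : ∏ t ∈ R.image tm,
      ((((P (it t)).image (fun x => x * (sc (it t))⁻¹)).card : ℕ) : ℝ) ^ (β / (1 + β)) =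
      ∏ r ∈ R, ((P r).card : ℝ) ^ (β / (1 + β)) := by
    rw [Finset.prod_image (fun a ha b hb hab => by
      rw [← it_tm (hne hR1 a ha), ← it_tm (hne hR1 b hb), hab])]
    refine Finset.prod_congr rfl fun r hr => ?_
    have hr1 := hne hR1 r hr
    rw [it_tm hr1, (double_image (inv_ne_zero (sc_ne hr1)) (P r)).2]
  rw [hprod] at h0
  exact h0

/-- from the product form to the form with one maximum -/
theorem prod_to_max {D M Q β : ℝ} (m : ℕ) (hD : 0 ≤ D) (hM : 0 ≤ M) (hQ : 0 ≤ Q) (hβ : 0 ≤ β)
    (h : D ^ (1 + ((m : ℝ) - 1) * (β / (1 + β))) ≤ Q * M * (M ^ (β / (1 + β))) ^ m) :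
    D ≤ Q ^ (1 / (1 + ((m : ℝ) - 1) * (β / (1 + β)))) * M ^ (1 + β / (1 + m * β)) := by
  have h1β : 0 < 1 + β := by linarith
  have h1m : 0 < 1 + (m : ℝ) * β := by positivity
  set e : ℝ := 1 + ((m : ℝ) - 1) * (β / (1 + β)) with he
  have he2 : e = (1 + m * β) / (1 + β) := by rw [he]; field_simp; ring
  have he0 : 0 < e := by rw [he2]; positivity
  have hκ : 0 ≤ β / (1 + β) := by positivity
  rcases eq_or_lt_of_le hM with h0 | h0
  · rw [← h0, mul_zero, zero_mul] at h
    have h2 : D = 0 := by
      by_contra hne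
      have : 0 < D ^ e := Real.rpow_pos_of_pos (lt_of_le_of_ne hD (Ne.symm hne)) _
      linarith
    rw [h2]; positivity
  have h3 : M * (M ^ (β / (1 + β))) ^ m = M ^ (1 + β / (1 + β) * m) := by
    rw [← Real.rpow_natCast, ← Real.rpow_mul hM, Real.rpow_add h0, Real.rpow_one]
  rw [mul_assoc, h3] at h
  calc D = (D ^ e) ^ (1 / e) := by
        rw [← Real.rpow_mul hD, mul_one_div_cancel he0.ne', Real.rpow_one]
    _ ≤ (Q * M ^ (1 + β / (1 + β) * m)) ^ (1 / e) :=
        Real.rpow_le_rpow (by positivity) h (by positivity)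
    _ = Q ^ (1 / e) * M ^ (1 + β / (1 + m * β)) := by
        rw [Real.mul_rpow hQ (by positivity), ← Real.rpow_mul hM]
        congr 2
        rw [he2]
        field_simp
        ring

/-- the structured inequality gives the general one -/
theorem slopes_converse (T R : Finset (Option ℚ)) (hT : T.Nonempty) (hT1 : some (-1) ∉ T)
    (hR1 : some (-1) ∉ R) (β : ℝ) (hβ : 0 ≤ β)
    (h : ∃ C : ℝ, ∀ (A : Finset (ℤ × ℤ)) (P : Option ℚ → Finset ℚ),
      (∀ r ∈ R, A.image (pj r) ⊆ P r ∧
        ((P r + P r).card : ℝ) ≤ (2 : ℝ) ^ (R.card + 1) * (P r).card) →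
      ((A.image (pj (some (-1)))).card : ℝ) ≤ C *
        ((max (T.sup (fun r => (A.image (pj r)).card)) (R.sup (fun r => (P r).card)) : ℕ) : ℝ) ^
          (1 + β / (1 + R.card * β))) :
    ∃ C : ℝ, ∀ A : Finset (ℤ × ℤ), ((A.image (pj (some (-1)))).card : ℝ) ≤
      C * ((T.sup (fun r => (A.image (pj r)).card) : ℕ) : ℝ) ^ (1 + β) := by
  classical
  have hne : ∀ {X : Finset (Option ℚ)}, some (-1) ∉ X → ∀ r ∈ X, r ≠ some (-1) :=
    fun hX r hr h' => hX (h' ▸ hr)
  have hden : (0 : ℝ) < 1 + R.card * β := by positivity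
  set b : ℝ := β / (1 + R.card * β) with hb
  have hb0 : 0 ≤ b := by positivity
  have h1mb : 1 - (R.card : ℝ) * b = 1 / (1 + R.card * β) := by
    rw [hb]; field_simp; ring
  have hmb : ((R.image tm).card : ℝ) * b < 1 := by
    rw [image_tm_card hR1]
    have : 0 < 1 - (R.card : ℝ) * b := by rw [h1mb]; positivity
    linarith
  obtain ⟨C2, hC2⟩ := converse t_hsh Pool.SPJ.H70.t_prd (T.image tm) (R.image tm) (hT.image _) b hb0 hmb (by
    obtain ⟨C, hC⟩ := h
    rw [image_tm_card hR1]
    refine ⟨|C|, fun A P N hN hA hP => ?_⟩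
    have hmap : ∀ (f : ℤ × ℤ → ℚ), (A.image (fun l : ℤ × ℤ => (l.1 + l.2, l.1))).image f =
        A.image (fun l => f (l.1 + l.2, l.1)) := fun f => by
      rw [Finset.image_image]; rfl
    have hcard : ∀ r : Option ℚ, r ≠ some (-1) →
        ((A.image (fun l : ℤ × ℤ => (l.1 + l.2, l.1))).image (pj r)) =
          (A.image (ptz (tm r))).image (fun x => x * sc r) := by
      intro r hr
      rw [hmap, Finset.image_image]
      exact Finset.image_congr (fun l _ => by
        simp only [Function.comp]; rw [pj_line hr, mul_comm])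
    have h1 := hC (A.image (fun l : ℤ × ℤ => (l.1 + l.2, l.1)))
      (fun r => (P (tm r)).image (fun x => x * sc r)) (by
        intro r hr
        have hr1 := hne hR1 r hr
        obtain ⟨h3, h4⟩ := double_image (sc_ne hr1) (P (tm r))
        obtain ⟨_, h5, h6⟩ := hP (tm r) (Finset.mem_image_of_mem _ hr)
        refine ⟨?_, ?_⟩
        · rw [hcard r hr1]; exact Finset.image_subset_image h6
        · rw [h3, h4]; exact h5)
    have h2 : ((A.image (fun l : ℤ × ℤ => (l.1 + l.2, l.1))).image (pj (some (-1)))).card =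
        (A.image Prod.snd).card := by
      rw [hmap]
      have : A.image (fun l => pj (some (-1)) (l.1 + l.2, l.1)) =
          (A.image Prod.snd).image (fun z : ℤ => (z : ℚ)) := by
        rw [Finset.image_image]
        exact Finset.image_congr (fun l _ => by
          simp only [pj, Option.elim_some, Function.comp]; push_cast; ring)
      rw [this, Finset.card_image_of_injective _ Int.cast_injective]
    rw [h2] at h1
    refine h1.trans ((mul_le_mul_of_nonneg_right (le_abs_self C) (by positivity)).trans ?_)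
    refine mul_le_mul_of_nonneg_left ?_ (abs_nonneg _)
    refine Real.rpow_le_rpow (Nat.cast_nonneg _) ?_ (by linarith)
    rw [Nat.cast_max]
    refine max_le (sup_le_real T _ hN fun r hr => ?_) (sup_le_real R _ hN fun r hr => ?_)
    · rw [hcard r (hne hT1 r hr)]
      exact le_trans (by exact_mod_cast Finset.card_image_le)
        (hA _ (Finset.mem_image_of_mem _ hr))
    · exact le_trans (by exact_mod_cast Finset.card_image_le)
        (hP (tm r) (Finset.mem_image_of_mem _ hr)).1)
  refine ⟨C2, fun A => ?_⟩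
  have hexp : 1 + b / (1 - ((R.image tm).card : ℝ) * b) = 1 + β := by
    rw [image_tm_card hR1, h1mb, hb]; field_simp
  rw [hexp] at hC2
  have hmap : ∀ (f : ℤ × ℤ → ℚ), (A.image (fun p : ℤ × ℤ => (p.2, p.1 - p.2))).image f =
      A.image (fun p => f (p.2, p.1 - p.2)) := fun f => by
    rw [Finset.image_image]; rfl
  have h1 := hC2 (A.image (fun p : ℤ × ℤ => (p.2, p.1 - p.2)))
    ((T.sup (fun r => (A.image (pj r)).card) : ℕ) : ℝ) (Nat.cast_nonneg _) (by
      intro t ht
      obtain ⟨r, hr, rfl⟩ := Finset.mem_image.1 ht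
      have h3 : (A.image (fun p : ℤ × ℤ => (p.2, p.1 - p.2))).image (ptz (tm r)) =
          A.image (pt uu dd (tm r)) := by
        rw [hmap]
        exact Finset.image_congr (fun p _ => by
          simp only [ptz, pt, uu, dd]; push_cast; ring)
      rw [h3, card_pj (hne hT1 r hr)]
      exact_mod_cast Finset.le_sup (f := fun r => (A.image (pj r)).card) hr)
  have h4 : ((A.image (fun p : ℤ × ℤ => (p.2, p.1 - p.2))).image Prod.snd).card =
      (A.image (pj (some (-1)))).card := by
    rw [Finset.image_image]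
    have h5 : A.image (pj (some (-1))) =
        (A.image (Prod.snd ∘ fun p : ℤ × ℤ => (p.2, p.1 - p.2))).image (fun z : ℤ => (z : ℚ)) := by
      rw [Finset.image_image]
      exact Finset.image_congr (fun p _ => by
        simp only [pj, Option.elim_some, Function.comp]; push_cast; ring)
    rw [h5, Finset.card_image_of_injective _ Int.cast_injective]
  rw [h4] at h1
  exact h1

/-- the exponent below Katz-Tao, with slopes outside `R` -/
theorem exists_slopes (R : Finset (Option ℚ)) (hR1 : some (-1) ∉ R) :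
    ∃ T : Finset (Option ℚ), T.Nonempty ∧ some (-1) ∉ T ∧ Disjoint T R ∧
      ∀ A : Finset (ℤ × ℤ), ((A.image (pj (some (-1)))).card : ℝ) ≤
        1 * ((T.sup (fun r => (A.image (pj r)).card) : ℕ) : ℝ) ^ (1 + 67377 / 100000 : ℝ) := by
  classical
  obtain ⟨a, ha, hg⟩ := Pool.Agent.H90.AK.exists_good2
  obtain ⟨T0, w, h1, h2, h3, h4⟩ := hg.avoid (R.image tm)
  -- add one more time so that the set is nonempty
  obtain ⟨t1, ht1⟩ := Infinite.exists_notMem_finset (R.image tm ∪ {0})
  rw [Finset.mem_union, not_or, Finset.mem_singleton] at ht1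
  have htmit : ∀ t : ℚ, tm (it t) = t := by
    intro t
    by_cases h0 : t = 0
    · simp [it, tm, h0]
    · simp only [it, if_neg h0, tm, Option.elim_some]
      field_simp
      ring
  have hit : ∀ t : ℚ, it t ≠ some (-1) := by
    intro t h
    by_cases h0 : t = 0
    · simp [it, h0] at h
    · simp only [it, if_neg h0, Option.some.injEq] at h
      have : 1 / t = 0 := by linarith
      exact h0 (by simpa using this)
  refine ⟨(insert t1 T0).image it, ⟨_, Finset.mem_image_of_mem _ (Finset.mem_insert_self _ _)⟩,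
    ?_, ?_, ?_⟩
  · intro h
    obtain ⟨t, _, h'⟩ := Finset.mem_image.1 h
    exact hit t h'
  · rw [Finset.disjoint_left]
    intro r hr hr'
    obtain ⟨t, ht, rfl⟩ := Finset.mem_image.1 hr
    have h5 : t ∈ R.image tm := by
      rw [← htmit t]; exact Finset.mem_image_of_mem _ hr'
    rcases Finset.mem_insert.1 ht with h | h
    · exact ht1.1 (h ▸ h5)
    · exact h2 t h h5
  · intro A
    rw [one_mul]
    rcases A.eq_empty_or_nonempty with rfl | hA
    · simp only [Finset.image_empty, Finset.card_empty, Nat.cast_zero]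
      positivity
    · set N : ℝ := ((((insert t1 T0).image it).sup (fun r => (A.image (pj r)).card) : ℕ) : ℝ)
        with hN
      have hle : ∀ t ∈ insert t1 T0, ((A.image (pt uu dd t)).card : ℝ) ≤ N := by
        intro t ht
        have h5 := card_pj (hit t) A
        rw [htmit t] at h5
        rw [h5, hN]
        exact_mod_cast Finset.le_sup (f := fun r => (A.image (pj r)).card)
          (Finset.mem_image_of_mem it ht)
      have hN1 : 1 ≤ N := by
        refine le_trans ?_ (hle t1 (Finset.mem_insert_self _ _))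
        exact_mod_cast Finset.card_pos.2 (hA.image _)
      have : Nonempty A := ⟨⟨_, hA.choose_spec⟩⟩
      have h6 := Pool.Agent.H49.Ent.card_le_of_AKW h1 h3 h4 (A := A) (fun p => uu p.1)
        (fun p => dd p.1) N (fun t ht => ?_)
      · have e : (Finset.univ.image (fun p : A => dd p.1)) = A.image (pj (some (-1))) := by
          ext z
          simp only [Finset.mem_image, Finset.mem_univ, true_and, Subtype.exists, exists_prop]
          rfl
        rw [e] at h6
        refine h6.trans (Real.rpow_le_rpow_of_exponent_le hN1 ?_)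
        linarith
      · have e : (Finset.univ.image (fun p : A => uu p.1 + t * dd p.1)) =
            A.image (pt uu dd t) := by
          ext z
          simp only [Finset.mem_image, Finset.mem_univ, true_and, Subtype.exists, exists_prop]
          rfl
        rw [e]
        exact hle t (Finset.mem_insert_of_mem ht)

end Pool.SPJ
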