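import Mathlib
import Pool.Agent.H93.SPJ.Slopes

/-!
# Arithmetic Kakeya: sets with structured projections

`proj r` is the projection with slope `r`, `none` is the slope `∞`.  `NT T A` is the largest
projection of `A` with a slope in `T`.  `Covers R K A P`: for each slope `r` in `R` the projection
of `A` lies in the finite set `P r`, which has doubling at most `K`.
-/

open scoped Pointwise

namespace Pool.Agent.Results.MP_169869_co.StructuredProjections

/-- `π_r(x, y) = x + r y` for rational `r`, and `π_∞(x, y) = y` -/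
def proj (r : Option ℚ) (p : ℤ × ℤ) : ℚ := r.elim (p.2 : ℚ) (fun s => (p.1 : ℚ) + s * (p.2 : ℚ))

/-- the maximum of `|π_r(A)|` over the slopes `r ∈ T` -/
def NT (T : Finset (Option ℚ)) (A : Finset (ℤ × ℤ)) : ℕ :=
  T.sup (fun r => (A.image (proj r)).card)

/-- `π_r(A) ⊆ P_r` and `|P_r + P_r| ≤ K |P_r|` for all `r ∈ R` -/
def Covers (R : Finset (Option ℚ)) (K : ℝ) (A : Finset (ℤ × ℤ)) (P : Option ℚ → Finset ℚ) : Prop :=
  ∀ r ∈ R, A.image (proj r) ⊆ P r ∧ ((P r + P r).card : ℝ) ≤ K * (P r).card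

theorem to_max {R : Finset (Option ℚ)} {A : Finset (ℤ × ℤ)} {P : Option ℚ → Finset ℚ}
    {T : Finset (Option ℚ)} {K : ℝ} {C : ℕ} (β : ℝ) (hβ : 0 ≤ β) (hK : 1 ≤ K)
    (h : ((A.image (proj (some (-1)))).card : ℝ) ^ (1 + ((R.card : ℝ) - 1) * (β / (1 + β))) ≤
      (C * K) ^ C * (NT T A : ℝ) * ∏ r ∈ R, ((P r).card : ℝ) ^ (β / (1 + β))) :
    ((A.image (proj (some (-1)))).card : ℝ) ≤
      ((C * K) ^ C) ^ (1 / (1 + ((R.card : ℝ) - 1) * (β / (1 + β)))) *
        ((max (NT T A) (R.sup (fun r => (P r).card)) : ℕ) : ℝ) ^ (1 + β / (1 + R.card * β)) := by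
  have hκ : 0 ≤ β / (1 + β) := by positivity
  set M : ℝ := ((max (NT T A) (R.sup (fun r => (P r).card)) : ℕ) : ℝ) with hM
  have hM0 : 0 ≤ M := Nat.cast_nonneg _
  have hQ0 : (0 : ℝ) ≤ (C * K) ^ C := by positivity
  refine Pool.SPJ.prod_to_max R.card (Nat.cast_nonneg _) hM0 hQ0 hβ (h.trans ?_)
  have h1 : (NT T A : ℝ) ≤ M := by rw [hM]; exact_mod_cast le_max_left _ _
  have h2 : ∏ r ∈ R, ((P r).card : ℝ) ^ (β / (1 + β)) ≤ (M ^ (β / (1 + β))) ^ R.card := by
    rw [← Finset.prod_const]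
    refine Finset.prod_le_prod (fun _ _ => by positivity) fun r hr => ?_
    refine Real.rpow_le_rpow (Nat.cast_nonneg _) ?_ hκ
    rw [hM]
    exact_mod_cast (Finset.le_sup (f := fun r => (P r).card) hr).trans (le_max_right _ _)
  exact mul_le_mul (mul_le_mul_of_nonneg_left h1 hQ0) h2
    (Finset.prod_nonneg fun _ _ => by positivity) (by positivity)

theorem result :
    (∀ (T R : Finset (Option ℚ)) (β : ℝ), T.Nonempty → some (-1) ∉ T → some (-1) ∉ R →
      Disjoint T R → 0 ≤ β →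
      [∃ C : ℝ, ∀ A : Finset (ℤ × ℤ),
          ((A.image (proj (some (-1)))).card : ℝ) ≤ C * (NT T A : ℝ) ^ (1 + β),
        ∃ C : ℕ, ∀ K : ℝ, 1 ≤ K → ∀ (A : Finset (ℤ × ℤ)) (P : Option ℚ → Finset ℚ),
          Covers R K A P →
          ((A.image (proj (some (-1)))).card : ℝ) ^ (1 + ((R.card : ℝ) - 1) * (β / (1 + β))) ≤
            (C * K) ^ C * (NT T A : ℝ) * ∏ r ∈ R, ((P r).card : ℝ) ^ (β / (1 + β)),
        ∀ K : ℝ, 1 ≤ K → ∃ C : ℝ, ∀ (A : Finset (ℤ × ℤ)) (P : Option ℚ → Finset ℚ),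
          Covers R K A P →
          ((A.image (proj (some (-1)))).card : ℝ) ≤
            C * ((max (NT T A) (R.sup (fun r => (P r).card)) : ℕ) : ℝ) ^
              (1 + β / (1 + R.card * β)),
        ∃ C : ℝ, ∀ (A : Finset (ℤ × ℤ)) (P : Option ℚ → Finset ℚ),
          Covers R (2 ^ (R.card + 1)) A P →
          ((A.image (proj (some (-1)))).card : ℝ) ≤
            C * ((max (NT T A) (R.sup (fun r => (P r).card)) : ℕ) : ℝ) ^
              (1 + β / (1 + R.card * β))].TFAE) ∧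
    (∀ R : Finset (Option ℚ), some (-1) ∉ R →
      ∃ T : Finset (Option ℚ), T.Nonempty ∧ some (-1) ∉ T ∧ Disjoint T R ∧
        ∃ C : ℕ, ∀ K : ℝ, 1 ≤ K → ∀ (A : Finset (ℤ × ℤ)) (P : Option ℚ → Finset ℚ),
          Covers R K A P →
          ((A.image (proj (some (-1)))).card : ℝ) ^
              (1 + ((R.card : ℝ) - 1) * (67377 / 167377 : ℝ)) ≤
            (C * K) ^ C * (NT T A : ℝ) * ∏ r ∈ R, ((P r).card : ℝ) ^ (67377 / 167377 : ℝ) ∧
          ((A.image (proj (some (-1)))).card : ℝ) ≤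
            (C * K) ^ C * ((max (NT T A) (R.sup (fun r => (P r).card)) : ℕ) : ℝ) ^
              (1 + 67377 / (100000 + 67377 * R.card) : ℝ)) := by
  classical
  refine ⟨?_, ?_⟩
  · intro T R β hT hT1 hR1 hTR hβ
    tfae_have 1 → 2 := by
      intro h
      obtain ⟨C, _, hC⟩ := Pool.SPJ.slopes_forward T R hT1 hR1 hTR β hβ h
      exact ⟨C, hC⟩
    tfae_have 2 → 3 := by
      rintro ⟨C, hC⟩ K hK
      refine ⟨_, fun A P hP => to_max β hβ (C := C) hK (hC K hK A P hP)⟩
    tfae_have 3 → 4 := fun h => h (2 ^ (R.card + 1)) (one_le_pow₀ (by norm_num))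
    tfae_have 4 → 1 := fun h => Pool.SPJ.slopes_converse T R hT hT1 hR1 β hβ h
    tfae_finish
  · intro R hR1
    obtain ⟨T, hT, hT1, hTR, hgen⟩ := Pool.SPJ.exists_slopes R hR1
    refine ⟨T, hT, hT1, hTR, ?_⟩
    obtain ⟨C, hC1, hC⟩ := Pool.SPJ.slopes_forward T R hT1 hR1 hTR (67377 / 100000) (by norm_num)
      ⟨1, hgen⟩
    refine ⟨2 * C, fun K hK A P hP => ?_⟩
    have hCr : (1 : ℝ) ≤ C := by exact_mod_cast hC1
    have hCK : (1 : ℝ) ≤ C * K := by nlinarith
    have hQ : (1 : ℝ) ≤ (C * K) ^ C := one_le_pow₀ hCK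
    have hm : (0 : ℝ) ≤ (R.card : ℝ) := Nat.cast_nonneg _
    have hle : (C * K) ^ (2 * C) ≤ (((2 * C : ℕ) : ℝ) * K) ^ (2 * C) := by
      refine pow_le_pow_left₀ (by positivity) ?_ _
      push_cast
      nlinarith
    have hκ : ((67377 / 100000 : ℝ) / (1 + 67377 / 100000)) = 67377 / 167377 := by norm_num
    have hb : (1 + (67377 / 100000 : ℝ) / (1 + R.card * (67377 / 100000 : ℝ))) =
        1 + 67377 / (100000 + 67377 * R.card) := by
      have h1 : (0 : ℝ) < 1 + R.card * (67377 / 100000 : ℝ) := by positivity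
      have h2 : (0 : ℝ) < 100000 + 67377 * (R.card : ℝ) := by positivity
      field_simp
    have h0 := hC K hK A P hP
    refine ⟨?_, ?_⟩
    · rw [hκ] at h0
      refine h0.trans ?_
      have h3 : (0 : ℝ) ≤ ∏ r ∈ R, ((P r).card : ℝ) ^ (67377 / 167377 : ℝ) :=
        Finset.prod_nonneg fun _ _ => by positivity
      refine mul_le_mul_of_nonneg_right (mul_le_mul_of_nonneg_right ?_ (Nat.cast_nonneg _)) h3
      exact (pow_le_pow_right₀ hCK (by omega)).trans hle
    · rw [← hb]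
      refine (to_max (67377 / 100000) (by norm_num) (C := C) hK h0).trans ?_
      refine mul_le_mul_of_nonneg_right (le_trans ?_ hle) (by positivity)
      calc ((C * K) ^ C) ^ (1 / (1 + ((R.card : ℝ) - 1) *
            ((67377 / 100000 : ℝ) / (1 + 67377 / 100000))))
          ≤ ((C * K) ^ C) ^ (2 : ℝ) := by
            refine Real.rpow_le_rpow_of_exponent_le hQ ?_
            rw [div_le_iff₀ (by nlinarith)]
            nlinarith
        _ = (C * K) ^ (2 * C) := by
            rw [show (2 : ℝ) = ((2 : ℕ) : ℝ) by norm_num, Real.rpow_natCast, ← pow_mul]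
            congr 1; ring

end Pool.Agent.Results.MP_169869_co.StructuredProjections
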