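import Pool.Agent.H93.SPJ.Main

/-! the forward theorem -/

open scoped Pointwise

namespace Pool.SPJ

theorem SB_base {ι : Type*} (u d : ι → ℚ) (T : Finset ℚ) (e : ℝ)
    (h : ∃ C : ℝ, ∀ (A : Finset ι) (N : ℝ), 0 ≤ N →
      (∀ t ∈ T, ((A.image (pt u d t)).card : ℝ) ≤ N) → ((A.image d).card : ℝ) ≤ C * N ^ e) :
    SB u d T ∅ e := by
  obtain ⟨C, hC⟩ := h
  refine ⟨⌈C⌉₊ + 1, by omega, ?_⟩
  intro K hK A P N hN hT _
  refine (hC A N hN hT).trans (mul_le_mul_of_nonneg_right ?_ (by positivity))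
  have h1 : C ≤ ((⌈C⌉₊ + 1 : ℕ) : ℝ) := by push_cast; linarith [Nat.le_ceil C]
  have h2 : (1 : ℝ) ≤ ((⌈C⌉₊ + 1 : ℕ) : ℝ) := by push_cast; linarith [Nat.cast_nonneg (α := ℝ) ⌈C⌉₊]
  have h3 : ((⌈C⌉₊ + 1 : ℕ) : ℝ) ≤ ((⌈C⌉₊ + 1 : ℕ) : ℝ) * K := by nlinarith
  have h4 : (1 : ℝ) ≤ ((⌈C⌉₊ + 1 : ℕ) : ℝ) * K := h2.trans h3
  calc C ≤ ((⌈C⌉₊ + 1 : ℕ) : ℝ) * K := h1.trans h3
    _ = (((⌈C⌉₊ + 1 : ℕ) : ℝ) * K) ^ 1 := (pow_one _).symm
    _ ≤ (((⌈C⌉₊ + 1 : ℕ) : ℝ) * K) ^ (⌈C⌉₊ + 1) := pow_le_pow_right₀ h4 (by omega)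

theorem forward (hP : PluStmt) (hCel : CelStmt) (hI : IntStmt) (hCnt : CntStmt)
    {ι : Type*} (u d : ι → ℚ) (T : Finset ℚ) (β : ℝ) (hβ : 0 ≤ β)
    (h : ∃ C : ℝ, ∀ (A : Finset ι) (N : ℝ), 0 ≤ N →
      (∀ t ∈ T, ((A.image (pt u d t)).card : ℝ) ≤ N) →
      ((A.image d).card : ℝ) ≤ C * N ^ (1 + β)) (R : Finset ℚ) (hR : Disjoint R T) :
    SB u d T R (1 + β / (1 + R.card * β)) := by
  classical
  induction R using Finset.induction_on with
  | empty => simpa using SB_base u d T (1 + β) h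
  | insert s R hs ih =>
    have hd : Disjoint R T := Finset.disjoint_of_subset_left (Finset.subset_insert _ _) hR
    have hsT : s ∉ T := Finset.disjoint_left.1 hR (Finset.mem_insert_self _ _)
    have h1 : (0 : ℝ) < 1 + R.card * β := by positivity
    have h2 := step hP hCel hI hCnt u d T R s hsT hs _ (by
      have : 0 ≤ β / (1 + R.card * β) := by positivity
      linarith) (ih hd)
    have h3 : (2 - 1 / (1 + β / (1 + R.card * β)) : ℝ) =
        1 + β / (1 + ((insert s R).card : ℝ) * β) := by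
      rw [Finset.card_insert_of_notMem hs]
      have h4 : (0 : ℝ) < 1 + (R.card + 1) * β := by positivity
      push_cast
      have h5 : (1 + β / (1 + R.card * β) : ℝ) = (1 + (R.card + 1) * β) / (1 + R.card * β) := by
        field_simp; ring
      rw [h5]
      field_simp
      ring
    rwa [h3] at h2

end Pool.SPJ
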