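import Pool.Agent.H93.SPJ.Step

/-! the traces of the other structured sets on the cells -/

open scoped Pointwise

namespace Pool.SPJ

/-- trace of `P` on the cells of `P0` -/
def Tr (e : ℚ) (P P0 : Finset ℚ) : Finset ℚ := (P - P) ∩ (Wf e 1 P0 - Wf e 1 P0)

theorem Tr_nonempty {e : ℚ} {P P0 : Finset ℚ} (h : P.Nonempty) (h0 : P0.Nonempty) :
    (Tr e P P0).Nonempty := by
  obtain ⟨p, hp⟩ := h
  have hw : (0 : ℚ) ∈ Wf e 1 P0 := Sn_subset_Wf h0 1 (zero_mem_Sn h0 1)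
  exact ⟨0, Finset.mem_inter.2 ⟨Finset.mem_sub.2 ⟨p, hp, p, hp, sub_self p⟩,
    Finset.mem_sub.2 ⟨0, hw, 0, hw, sub_self 0⟩⟩⟩

theorem Tr_doubling (hI : IntStmt) {P P0 : Finset ℚ} {K : ℝ} {e' c' : ℚ} {C : ℕ}
    (hne : P.Nonempty) (hne0 : P0.Nonempty)
    (hC1 : ((Wf c' 5 P).card : ℝ) ≤ K ^ C * P.card)
    (hC0 : ((Wf e' 5 P0).card : ℝ) ≤ K ^ C * P0.card) (hK : 0 ≤ K) :
    ((Tr e' P P0 + Tr e' P P0).card : ℝ) ≤ K ^ (2 * C) * (Tr e' P P0).card := by
  set W := Wf e' 1 P0 with hW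
  set X := (P - P) + (P - P) with hX
  set Y := (W - W) + (W - W) with hY
  obtain ⟨p0, hp0⟩ := hne0
  obtain ⟨q0, hq0⟩ := hne
  have hne0 : P0.Nonempty := ⟨p0, hp0⟩
  have hne : P.Nonempty := ⟨q0, hq0⟩
  have hWP : P0.card ≤ W.card :=
    card_le_of_translate p0 fun y hy => Sn_subset_Wf hne0 1 (sub_mem_Sn_one hy hp0)
  have hWpos : (0 : ℝ) < W.card := by
    exact_mod_cast lt_of_lt_of_le (Finset.card_pos.2 hne0) hWP
  have hPpos : (0 : ℝ) < P.card := by exact_mod_cast Finset.card_pos.2 hne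
  have h1 : Tr e' P P0 + Tr e' P P0 ⊆ X ∩ Y := by
    intro z hz
    obtain ⟨a, ha, b, hb, rfl⟩ := Finset.mem_add.1 hz
    have ha' := Finset.mem_inter.1 ha
    have hb' := Finset.mem_inter.1 hb
    exact Finset.mem_inter.2 ⟨Finset.add_mem_add ha'.1 hb'.1, Finset.add_mem_add ha'.2 hb'.2⟩
  have h2 := hI X Y P W
  have h3 : (X + P).card ≤ (Wf c' 5 P).card := by
    refine card_le_of_translate q0 fun z hz => ?_
    obtain ⟨x, hx, q, hq, rfl⟩ := Finset.mem_add.1 hz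
    obtain ⟨a, ha, b, hb, rfl⟩ := Finset.mem_add.1 hx
    obtain ⟨a1, ha1, a2, ha2, rfl⟩ := Finset.mem_sub.1 ha
    obtain ⟨b1, hb1, b2, hb2, rfl⟩ := Finset.mem_sub.1 hb
    have h4 := add_mem_Sn (add_mem_Sn (sub_mem_Sn_one ha1 ha2) (sub_mem_Sn_one hb1 hb2))
      (sub_mem_Sn_one hq hq0)
    have : a1 - a2 + (b1 - b2) + q - q0 = a1 - a2 + (b1 - b2) + (q - q0) := by ring
    rw [this]
    exact Sn_subset_Wf hne 5 (Sn_mono hne (by norm_num) h4)
  have h5 : (Y + W).card ≤ (Wf e' 5 P0).card := by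
    refine Finset.card_le_card fun z hz => ?_
    obtain ⟨x, hx, q, hq, rfl⟩ := Finset.mem_add.1 hz
    obtain ⟨a, ha, b, hb, rfl⟩ := Finset.mem_add.1 hx
    obtain ⟨a1, ha1, a2, ha2, rfl⟩ := Finset.mem_sub.1 ha
    obtain ⟨b1, hb1, b2, hb2, rfl⟩ := Finset.mem_sub.1 hb
    have h4 := add_mem_Wf (add_mem_Wf (sub_mem_Wf ha1 ha2) (sub_mem_Wf hb1 hb2)) hq
    exact Wf_mono hne0 (by norm_num) h4
  have h6 : ((X + P).card : ℝ) ≤ K ^ C * P.card := le_trans (by exact_mod_cast h3) hC1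
  have h7 : ((Y + W).card : ℝ) ≤ K ^ C * W.card := by
    refine le_trans (by exact_mod_cast h5) (hC0.trans ?_)
    exact mul_le_mul_of_nonneg_left (by exact_mod_cast hWP) (by positivity)
  have h8 : (((Tr e' P P0 + Tr e' P P0).card : ℝ)) * (P.card * W.card) ≤
      (K ^ (2 * C) * (Tr e' P P0).card) * (P.card * W.card) := by
    have h9 : ((Tr e' P P0 + Tr e' P P0).card : ℝ) ≤ ((X ∩ Y).card : ℝ) := by
      exact_mod_cast Finset.card_le_card h1
    have h10 : ((X ∩ Y).card : ℝ) * (P.card * W.card) ≤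
        (Tr e' P P0).card * ((X + P).card * (Y + W).card) := by exact_mod_cast h2
    calc ((Tr e' P P0 + Tr e' P P0).card : ℝ) * (P.card * W.card)
        ≤ ((X ∩ Y).card : ℝ) * (P.card * W.card) :=
          mul_le_mul_of_nonneg_right h9 (by positivity)
      _ ≤ (Tr e' P P0).card * ((X + P).card * (Y + W).card) := h10
      _ ≤ (Tr e' P P0).card * ((K ^ C * P.card) * (K ^ C * W.card)) := by
          refine mul_le_mul_of_nonneg_left ?_ (by positivity)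
          exact mul_le_mul h6 h7 (by positivity) (by positivity)
      _ = (K ^ (2 * C) * (Tr e' P P0).card) * (P.card * W.card) := by
          rw [two_mul, pow_add]; ring
  exact le_of_mul_le_mul_right h8 (mul_pos hPpos hWpos)

end Pool.SPJ
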