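import Pool.Agent.H93.SPJ.Inter

/-! the induction step and the forward theorem -/

open scoped Pointwise

namespace Pool.SPJ

theorem interp {X M Q n e : ℝ} (hX : 0 ≤ X) (h1 : X ≤ M) (hQ : 1 ≤ Q) (hn : 0 ≤ n) (he : 1 ≤ e)
    (h2 : X ≤ Q * n ^ e) : X ≤ M ^ (1 - 1 / e) * Q * n := by
  have he0 : 0 < e := lt_of_lt_of_le one_pos he
  have hM : 0 ≤ M := hX.trans h1
  rcases eq_or_lt_of_le hX with h0 | h0
  · rw [← h0]; positivity
  have hγ : 0 ≤ 1 - 1 / e := by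
    rw [sub_nonneg, div_le_one he0]; exact he
  have hγ' : (0 : ℝ) ≤ 1 / e := by positivity
  calc X = X ^ (1 - 1 / e) * X ^ (1 / e) := by
        rw [← Real.rpow_add h0]; simp
    _ ≤ M ^ (1 - 1 / e) * (Q * n ^ e) ^ (1 / e) := by
        refine mul_le_mul (Real.rpow_le_rpow hX h1 hγ) (Real.rpow_le_rpow hX h2 hγ')
          (by positivity) (by positivity)
    _ = M ^ (1 - 1 / e) * (Q ^ (1 / e) * n) := by
        rw [Real.mul_rpow (by positivity) (by positivity), ← Real.rpow_mul hn]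
        rw [mul_one_div_cancel he0.ne', Real.rpow_one]
    _ ≤ M ^ (1 - 1 / e) * (Q * n) := by
        refine mul_le_mul_of_nonneg_left (mul_le_mul_of_nonneg_right ?_ hn) (by positivity)
        calc Q ^ (1 / e) ≤ Q ^ (1 : ℝ) :=
              Real.rpow_le_rpow_of_exponent_le hQ (by rw [div_le_one he0]; exact he)
          _ = Q := Real.rpow_one Q
    _ = M ^ (1 - 1 / e) * Q * n := by ring

theorem step (hP : PluStmt) (hCel : CelStmt) (hI : IntStmt) (hCnt : CntStmt)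
    {ι : Type*} (u d : ι → ℚ) (T R : Finset ℚ) (s : ℚ) (hsT : s ∉ T) (hsR : s ∉ R)
    (e : ℝ) (he : 1 ≤ e) (ih : SB u d T R e) : SB u d T (insert s R) (2 - 1 / e) := by
  classical
  have he0 : 0 < e := lt_of_lt_of_le one_pos he
  obtain ⟨C1, hC1, ih⟩ := ih
  obtain ⟨C2, hC2⟩ := plu_unif hP (({1} ∪ T.image (fun t => t - s)) ∪ R.image (fun r => r - s))
  set Mc : ℕ := C1 ^ C1 * (T.card + R.card + 1) with hMc
  have hMc1 : 1 ≤ Mc := by
    have : 0 < C1 ^ C1 := pow_pos (by omega) _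
    exact Nat.mul_pos this (by omega)
  refine ⟨Mc + (3 * C2 + 2 * C2 * C1), by omega, ?_⟩
  intro K hK A P N hN hT hR
  have hK0 : 0 ≤ K := by linarith
  rcases A.eq_empty_or_nonempty with hA | ⟨aA, haA⟩
  · subst hA; simp only [Finset.image_empty, Finset.card_empty, Nat.cast_zero]; positivity
  obtain ⟨hP0N, hP0K, x0, hx0⟩ := hR s (Finset.mem_insert_self _ _)
  set P0 := P s with hP0
  have hp0 := hx0 aA haA
  set p0 := pt u d s aA - x0 with hp0def
  have hne0 : P0.Nonempty := ⟨p0, hp0⟩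
  obtain ⟨F, hFD, hcov, hov⟩ := hCel (A.image d) P0 hne0
  have hf' : ∀ a : ι, ∃ c : ℚ, a ∈ A → c ∈ F ∧ d a - c ∈ P0 - P0 := by
    intro a
    by_cases ha : a ∈ A
    · obtain ⟨c, hc, hc'⟩ := hcov (d a) (Finset.mem_image_of_mem _ ha)
      exact ⟨c, fun _ => ⟨hc, hc'⟩⟩
    · exact ⟨0, fun h => absurd h ha⟩
  choose f hf using hf'
  set F1 : Finset ℚ := A.image f with hF1def
  have hF1 : F1 ⊆ F := by
    intro c hc
    obtain ⟨a, ha, rfl⟩ := Finset.mem_image.1 hc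
    exact (hf a ha).1
  set Ac : ℚ → Finset ι := fun c => A.filter (fun a => f a = c) with hAc
  have hAcmem : ∀ c a, a ∈ Ac c ↔ a ∈ A ∧ f a = c := fun c a => by simp [hAc]
  have hlc' : ∀ c : ℚ, ∃ l : ι, c ∈ F1 → l ∈ Ac c := by
    intro c
    by_cases hc : c ∈ F1
    · obtain ⟨a, ha, rfl⟩ := Finset.mem_image.1 hc
      exact ⟨a, fun _ => (hAcmem _ _).2 ⟨ha, rfl⟩⟩
    · exact ⟨aA, fun h => absurd h hc⟩
  choose lc hlc using hlc'
  -- positions relative to the cells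
  have hdc : ∀ c, ∀ a ∈ Ac c, d a - c ∈ Sn 1 P0 := by
    intro c a ha
    obtain ⟨h1, h2⟩ := (hAcmem c a).1 ha
    rw [Sn_one, ← h2]; exact (hf a h1).2
  have hpos : ∀ (r : ℚ) (c : ℚ), ∀ a ∈ Ac c, pt u d r a - x0 - p0 - (r - s) * c ∈ Wf (r - s) 1 P0 := by
    intro r c a ha
    refine mem_Wf.2 ⟨(pt u d s a - x0) - p0, sub_mem_Sn_one (hx0 a ((hAcmem c a).1 ha).1) hp0,
      d a - c, hdc c a ha, ?_⟩
    simp only [pt]; ring
  have hC2s : ∀ r ∈ R, ∀ (K : ℝ) (P : Finset ℚ), 1 ≤ K → P.Nonempty →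
      ((P + P).card : ℝ) ≤ K * P.card → ((Wf (r - s) 5 P).card : ℝ) ≤ K ^ C2 * P.card :=
    fun r hr => hC2 _ (by
      simp only [Finset.mem_union, Finset.mem_image]; exact Or.inr ⟨r, hr, rfl⟩)
  have hC2t : ∀ t ∈ T, ∀ (K : ℝ) (P : Finset ℚ), 1 ≤ K → P.Nonempty →
      ((P + P).card : ℝ) ≤ K * P.card → ((Wf (t - s) 5 P).card : ℝ) ≤ K ^ C2 * P.card :=
    fun r hr => hC2 _ (by
      simp only [Finset.mem_union, Finset.mem_image]; exact Or.inl (Or.inr ⟨r, hr, rfl⟩))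
  have hC21 : ∀ (K : ℝ) (P : Finset ℚ), 1 ≤ K → P.Nonempty →
      ((P + P).card : ℝ) ≤ K * P.card → ((Wf 1 5 P).card : ℝ) ≤ K ^ C2 * P.card :=
    hC2 1 (by simp)
  have hKp : (1 : ℝ) ≤ K ^ C2 := one_le_pow₀ hK
  have hKp2 : (1 : ℝ) ≤ K ^ (2 * C2) := one_le_pow₀ hK
  -- (1)
  have b1 : ∀ c ∈ F1, (((Ac c).image d).card : ℝ) ≤ K ^ C2 * N := by
    intro c _
    have h1 : ((Ac c).image d).card ≤ (Wf 1 5 P0).card := by
      refine card_le_of_translate c fun y hy => ?_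
      obtain ⟨a, ha, rfl⟩ := Finset.mem_image.1 hy
      exact Sn_subset_Wf hne0 5 (Sn_mono hne0 (by norm_num) (hdc c a ha))
    calc (((Ac c).image d).card : ℝ) ≤ ((Wf 1 5 P0).card : ℝ) := by exact_mod_cast h1
      _ ≤ K ^ C2 * P0.card := hC21 K P0 hK hne0 hP0K
      _ ≤ K ^ C2 * N := mul_le_mul_of_nonneg_left hP0N (by positivity)
  -- the numbers `N_c`
  set Nc : ℚ → ℝ := fun c => (∑ t ∈ T, (((Ac c).image (pt u d t)).card : ℝ)) +
    ∑ r ∈ R, ((Tr (r - s) (P r) P0).card : ℝ) with hNc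
  have hNc0 : ∀ c, 0 ≤ Nc c := fun c => add_nonneg
    (Finset.sum_nonneg fun _ _ => Nat.cast_nonneg _) (Finset.sum_nonneg fun _ _ => Nat.cast_nonneg _)
  have hRr : ∀ r ∈ R, ((P r).card : ℝ) ≤ N ∧ ((P r + P r).card : ℝ) ≤ K * (P r).card ∧
      ∃ x, ∀ a ∈ A, pt u d r a - x ∈ P r := fun r hr => hR r (Finset.mem_insert_of_mem hr)
  have hner : ∀ r ∈ R, (P r).Nonempty := fun r hr => by
    obtain ⟨_, _, x, hx⟩ := hRr r hr
    exact ⟨_, hx aA haA⟩
  -- (2)
  have b2 : ∀ c ∈ F1, (((Ac c).image d).card : ℝ) ≤ (C1 * K ^ (2 * C2)) ^ C1 * Nc c ^ e := by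
    intro c hc
    refine ih (K ^ (2 * C2)) hKp2 (Ac c) (fun r => Tr (r - s) (P r) P0) (Nc c) (hNc0 c) ?_ ?_
    · intro t ht
      have h1 := Finset.single_le_sum (f := fun t => (((Ac c).image (pt u d t)).card : ℝ))
        (fun _ _ => Nat.cast_nonneg _) ht
      have h2 : (0 : ℝ) ≤ ∑ r ∈ R, ((Tr (r - s) (P r) P0).card : ℝ) :=
        Finset.sum_nonneg fun _ _ => Nat.cast_nonneg _
      simp only [hNc]; linarith
    · intro r hr
      obtain ⟨hr1, hr2, x, hx⟩ := hRr r hr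
      refine ⟨?_, ?_, pt u d r (lc c), ?_⟩
      · have h1 := Finset.single_le_sum (f := fun r => ((Tr (r - s) (P r) P0).card : ℝ))
          (fun _ _ => Nat.cast_nonneg _) hr
        have h2 : (0 : ℝ) ≤ ∑ t ∈ T, (((Ac c).image (pt u d t)).card : ℝ) :=
          Finset.sum_nonneg fun _ _ => Nat.cast_nonneg _
        simp only [hNc]; linarith
      · exact Tr_doubling hI (hner r hr) hne0 (hC21 K (P r) hK (hner r hr) hr2)
          (hC2s r hr K P0 hK hne0 hP0K) hK0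
      · intro a ha
        have hl := hlc c hc
        refine Finset.mem_inter.2 ⟨?_, ?_⟩
        · refine Finset.mem_sub.2 ⟨_, hx a ((hAcmem c a).1 ha).1, _,
            hx (lc c) ((hAcmem c _).1 hl).1, by ring⟩
        · exact Finset.mem_sub.2 ⟨_, hpos r c a ha, _, hpos r c _ hl, by ring⟩
  -- (3)
  have b3 : ∀ t ∈ T, ∑ c ∈ F1, (((Ac c).image (pt u d t)).card : ℝ) ≤ K ^ (2 * C2) * N := by
    intro t ht
    have hts : t - s ≠ 0 := sub_ne_zero.2 (fun h => hsT (h ▸ ht))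
    have h1 := hCnt F1 (fun c => (Ac c).image (pt u d t)) (A.image (pt u d t)) (K ^ C2)
      (by positivity) (fun c _ => Finset.image_subset_image (Finset.filter_subset _ _)) ?_
    · refine h1.trans ?_
      exact mul_le_mul (pow_le_pow_right₀ hK (by omega)) (hT t ht) (by positivity)
        (by positivity)
    · intro y _
      refine overlap hts hne0 hF1 hov (hC2t t ht K P0 hK hne0 hP0K) 1 (by norm_num) (y - x0 - p0)
        (fun c => y ∈ (Ac c).image (pt u d t)) ?_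
      intro c _ hy
      obtain ⟨a, ha, rfl⟩ := Finset.mem_image.1 hy
      exact hpos t c a ha
  -- (4)
  have b4 : ∀ r ∈ R, ∑ c ∈ F1, ((Tr (r - s) (P r) P0).card : ℝ) ≤ K ^ (2 * C2) * N := by
    intro r hr
    have hrs : r - s ≠ 0 := sub_ne_zero.2 (fun h => hsR (h ▸ hr))
    obtain ⟨hr1, hr2, x, hx⟩ := hRr r hr
    have hq := hx aA haA
    set q0 := pt u d r aA - x with hq0
    set G : Finset ℚ := (Wf 1 5 (P r)).image (fun z => x + q0 + z) with hG
    have hcardB : ∀ c, ((Tr (r - s) (P r) P0).image (fun z => pt u d r (lc c) + z)).card =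
        (Tr (r - s) (P r) P0).card := fun c =>
      Finset.card_image_of_injective _ (fun a b h => by simpa using h)
    have h1 := hCnt F1 (fun c => (Tr (r - s) (P r) P0).image (fun z => pt u d r (lc c) + z)) G
      (K ^ C2) (by positivity) ?_ ?_
    · simp only [hcardB] at h1
      refine h1.trans ?_
      have h2 : (G.card : ℝ) ≤ K ^ C2 * N := by
        calc (G.card : ℝ) ≤ ((Wf 1 5 (P r)).card : ℝ) := by exact_mod_cast Finset.card_image_le
          _ ≤ K ^ C2 * (P r).card := hC21 K (P r) hK (hner r hr) hr2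
          _ ≤ K ^ C2 * N := mul_le_mul_of_nonneg_left hr1 (by positivity)
      calc K ^ C2 * (G.card : ℝ) ≤ K ^ C2 * (K ^ C2 * N) :=
            mul_le_mul_of_nonneg_left h2 (by positivity)
        _ = K ^ (2 * C2) * N := by rw [two_mul, pow_add]; ring
    · intro c hc y hy
      obtain ⟨z, hz, rfl⟩ := Finset.mem_image.1 hy
      have hz1 := (Finset.mem_inter.1 hz).1
      rw [← Sn_one] at hz1
      refine Finset.mem_image.2 ⟨(pt u d r (lc c) - x - q0) + z, ?_, by ring⟩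
      have h3 : pt u d r (lc c) - x - q0 ∈ Sn 1 (P r) :=
        sub_mem_Sn_one (hx _ ((hAcmem c _).1 (hlc c hc)).1) hq
      have h4 := add_mem_Sn h3 hz1
      exact Sn_subset_Wf (hner r hr) 5 (Sn_mono (hner r hr) (by norm_num) h4)
    · intro y _
      refine overlap hrs hne0 hF1 hov (hC2s r hr K P0 hK hne0 hP0K) 3 (by norm_num) (y - x0 - p0)
        (fun c => y ∈ (Tr (r - s) (P r) P0).image (fun z => pt u d r (lc c) + z)) ?_
      intro c hc hy
      obtain ⟨z, hz, rfl⟩ := Finset.mem_image.1 hy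
      obtain ⟨w1, hw1, w2, hw2, hz2⟩ := Finset.mem_sub.1 (Finset.mem_inter.1 hz).2
      have h5 := add_mem_Wf (hpos r c _ (hlc c hc)) (sub_mem_Wf hw1 hw2)
      have h6 : pt u d r (lc c) + z - x0 - p0 - (r - s) * c =
          pt u d r (lc c) - x0 - p0 - (r - s) * c + (w1 - w2) := by rw [hz2]; ring
      rw [h6]
      exact Wf_mono hne0 (by norm_num) h5
  -- (5)
  set Q : ℝ := (C1 * K ^ (2 * C2)) ^ C1 with hQ
  have hC1r : (1 : ℝ) ≤ C1 := by exact_mod_cast hC1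
  have hQ1 : 1 ≤ Q := one_le_pow₀ (by nlinarith [hKp2])
  have b5 : ∀ c ∈ F1, (((Ac c).image d).card : ℝ) ≤ (K ^ C2 * N) ^ (1 - 1 / e) * Q * Nc c :=
    fun c hc => interp (Nat.cast_nonneg _) (b1 c hc) hQ1 (hNc0 c) he (b2 c hc)
  have b6 : ((A.image d).card : ℝ) ≤ ∑ c ∈ F1, (((Ac c).image d).card : ℝ) := by
    have h1 : A.image d ⊆ F1.biUnion (fun c => (Ac c).image d) := by
      intro y hy
      obtain ⟨a, ha, rfl⟩ := Finset.mem_image.1 hy
      exact Finset.mem_biUnion.2 ⟨f a, Finset.mem_image_of_mem _ ha,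
        Finset.mem_image_of_mem _ ((hAcmem _ _).2 ⟨ha, rfl⟩)⟩
    have h2 := (Finset.card_le_card h1).trans Finset.card_biUnion_le
    exact_mod_cast h2
  have b7 : ∑ c ∈ F1, Nc c ≤ (T.card + R.card) * (K ^ (2 * C2) * N) := by
    simp only [hNc, Finset.sum_add_distrib]
    rw [Finset.sum_comm, Finset.sum_comm (s := F1) (t := R)]
    have h1 := Finset.sum_le_card_nsmul T (fun t => ∑ c ∈ F1, (((Ac c).image (pt u d t)).card : ℝ))
      (K ^ (2 * C2) * N) b3
    have h2 := Finset.sum_le_card_nsmul R (fun r => ∑ c ∈ F1, ((Tr (r - s) (P r) P0).card : ℝ))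
      (K ^ (2 * C2) * N) b4
    simp only [nsmul_eq_mul] at h1 h2
    linarith
  have hγ : 0 ≤ 1 - 1 / e := by
    rw [sub_nonneg, div_le_one he0]; exact he
  have hγ1 : 1 - 1 / e ≤ 1 := by
    have : (0 : ℝ) ≤ 1 / e := by positivity
    linarith
  have b8 : (K ^ C2 * N) ^ (1 - 1 / e) ≤ K ^ C2 * N ^ (1 - 1 / e) := by
    rw [Real.mul_rpow (by positivity) hN]
    refine mul_le_mul_of_nonneg_right ?_ (by positivity)
    calc (K ^ C2) ^ (1 - 1 / e) ≤ (K ^ C2) ^ (1 : ℝ) :=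
          Real.rpow_le_rpow_of_exponent_le hKp hγ1
      _ = K ^ C2 := Real.rpow_one _
  have hNpow : N ^ (1 - 1 / e) * N = N ^ (2 - 1 / e) := by
    rcases eq_or_lt_of_le hN with h0 | h0
    · rw [← h0, mul_zero, Real.zero_rpow]
      have : (1 : ℝ) / e ≤ 1 := by rw [div_le_one he0]; exact he
      linarith
    · rw [← Real.rpow_add_one h0.ne']; congr 1; ring
  have b9 : ((A.image d).card : ℝ) ≤
      (K ^ C2 * N ^ (1 - 1 / e)) * Q * ((T.card + R.card) * (K ^ (2 * C2) * N)) := by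
    calc ((A.image d).card : ℝ) ≤ ∑ c ∈ F1, (((Ac c).image d).card : ℝ) := b6
      _ ≤ ∑ c ∈ F1, (K ^ C2 * N) ^ (1 - 1 / e) * Q * Nc c := Finset.sum_le_sum b5
      _ = (K ^ C2 * N) ^ (1 - 1 / e) * Q * ∑ c ∈ F1, Nc c := by rw [Finset.mul_sum]
      _ ≤ (K ^ C2 * N ^ (1 - 1 / e)) * Q * ((T.card + R.card) * (K ^ (2 * C2) * N)) := by
          refine mul_le_mul (mul_le_mul_of_nonneg_right b8 (by positivity)) b7
            (Finset.sum_nonneg fun c _ => hNc0 c) (by positivity)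
  refine b9.trans ?_
  have hQeq : Q = (C1 : ℝ) ^ C1 * K ^ (2 * C2 * C1) := by
    rw [hQ, mul_pow, ← pow_mul]
  have hM : ((Mc : ℕ) : ℝ) = (C1 : ℝ) ^ C1 * (T.card + R.card + 1) := by
    rw [hMc]; push_cast; ring
  have b10 : (K ^ C2 * N ^ (1 - 1 / e)) * Q * ((T.card + R.card) * (K ^ (2 * C2) * N)) ≤
      (Mc : ℝ) * K ^ (3 * C2 + 2 * C2 * C1) * N ^ (2 - 1 / e) := by
    rw [hQeq, hM, ← hNpow]
    have h1 : (K ^ C2 * N ^ (1 - 1 / e)) * ((C1 : ℝ) ^ C1 * K ^ (2 * C2 * C1)) *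
        ((T.card + R.card) * (K ^ (2 * C2) * N)) =
        ((C1 : ℝ) ^ C1 * (T.card + R.card)) * K ^ (3 * C2 + 2 * C2 * C1) *
          (N ^ (1 - 1 / e) * N) := by
      rw [show 3 * C2 + 2 * C2 * C1 = C2 + 2 * C2 + 2 * C2 * C1 by ring, pow_add, pow_add]
      ring
    rw [h1]
    refine mul_le_mul_of_nonneg_right (mul_le_mul_of_nonneg_right ?_ (by positivity))
      (by positivity)
    refine mul_le_mul_of_nonneg_left (by linarith) (by positivity)
  refine b10.trans ?_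
  refine mul_le_mul_of_nonneg_right ?_ (by positivity)
  set E := 3 * C2 + 2 * C2 * C1 with hE
  have hMr : (1 : ℝ) ≤ Mc := by exact_mod_cast hMc1
  calc (Mc : ℝ) * K ^ E ≤ ((Mc + E : ℕ) : ℝ) ^ (Mc + E) * K ^ (Mc + E) := by
        refine mul_le_mul ?_ (pow_le_pow_right₀ hK (by omega)) (by positivity) (by positivity)
        calc (Mc : ℝ) ≤ ((Mc + E : ℕ) : ℝ) := by push_cast; linarith [Nat.cast_nonneg (α := ℝ) E]
          _ = ((Mc + E : ℕ) : ℝ) ^ 1 := (pow_one _).symm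
          _ ≤ ((Mc + E : ℕ) : ℝ) ^ (Mc + E) :=
              pow_le_pow_right₀ (by push_cast; linarith [Nat.cast_nonneg (α := ℝ) E]) (by omega)
    _ = (((Mc + E : ℕ) : ℝ) * K) ^ (Mc + E) := by rw [mul_pow]

end Pool.SPJ
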