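import Pool.Agent.H93.SPJ.Inter

/-! the refined induction step: bounds in terms of the product of the cards of the structured
sets -/

open scoped Pointwise

namespace Pool.SPJ

/-- the refined bound with structured projections at the times of `R` -/
def SR {ι : Type*} (u d : ι → ℚ) (T R : Finset ℚ) (κ : ℝ) : Prop :=
  ∃ C : ℕ, 1 ≤ C ∧ ∀ K : ℝ, 1 ≤ K → ∀ (A : Finset ι) (P : ℚ → Finset ℚ) (N : ℝ), 0 ≤ N →
    (∀ t ∈ T, ((A.image (pt u d t)).card : ℝ) ≤ N) →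
    (∀ r ∈ R, ((P r + P r).card : ℝ) ≤ K * (P r).card ∧
      ∃ x, ∀ a ∈ A, pt u d r a - x ∈ P r) →
    ((A.image d).card : ℝ) ^ (1 + ((R.card : ℝ) - 1) * κ) ≤
      (C * K) ^ C * N * ∏ r ∈ R, ((P r).card : ℝ) ^ κ

/-- the elementary inequality behind the step -/
theorem combine (F : Finset ℚ) (a : ℚ → ℝ) (S M κ : ℝ) (m : ℕ) (hκ : 0 ≤ κ)
    (ha : ∀ c ∈ F, 0 ≤ a c) (hM : ∀ c ∈ F, a c ≤ M) (hM0 : 0 ≤ M) (hS0 : 0 ≤ S)
    (hS : S ≤ ∑ c ∈ F, a c) (hF : F.Nonempty) :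
    S ^ (1 + (m : ℝ) * κ) ≤
      M ^ κ * (F.card : ℝ) ^ (κ * m) * ∑ c ∈ F, a c ^ (1 + ((m : ℝ) - 1) * κ) := by
  have hsum0 : 0 ≤ ∑ c ∈ F, a c := Finset.sum_nonneg ha
  have hn : (1 : ℝ) ≤ F.card := by exact_mod_cast Finset.card_pos.2 hF
  have hmκ : 0 ≤ (m : ℝ) * κ := by positivity
  refine (Real.rpow_le_rpow hS0 hS (by linarith)).trans ?_
  rcases Nat.eq_zero_or_pos m with hm | hm
  · subst hm
    simp only [Nat.cast_zero, zero_mul, add_zero, Real.rpow_one, mul_zero, Real.rpow_zero, mul_one,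
      zero_sub, neg_mul, one_mul]
    rw [Finset.mul_sum]
    refine Finset.sum_le_sum fun c hc => ?_
    rcases eq_or_lt_of_le (ha c hc) with h0 | h0
    · rw [← h0]; positivity
    · calc a c = a c ^ κ * a c ^ (1 + -κ) := by
            rw [← Real.rpow_add h0]; simp
        _ ≤ M ^ κ * a c ^ (1 + -κ) :=
            mul_le_mul_of_nonneg_right (Real.rpow_le_rpow h0.le (hM c hc) hκ) (by positivity)
  · have hm1 : (1 : ℝ) ≤ m := by exact_mod_cast hm
    set e : ℝ := 1 + ((m : ℝ) - 1) * κ with he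
    have he1 : 1 ≤ e := by
      have : 0 ≤ ((m : ℝ) - 1) * κ := mul_nonneg (by linarith) hκ
      linarith
    have h1 : (∑ c ∈ F, a c) ^ e ≤ (F.card : ℝ) ^ (e - 1) * ∑ c ∈ F, a c ^ e :=
      Real.rpow_sum_le_const_mul_sum_rpow_of_nonneg F he1 ha
    have h2 : ∑ c ∈ F, a c ≤ F.card * M := by
      have := Finset.sum_le_card_nsmul F a M hM
      rwa [nsmul_eq_mul] at this
    have h3 : (∑ c ∈ F, a c) ^ κ ≤ (F.card : ℝ) ^ κ * M ^ κ := by
      rw [← Real.mul_rpow (by positivity) hM0]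
      exact Real.rpow_le_rpow hsum0 h2 hκ
    rcases eq_or_lt_of_le hsum0 with h0 | h0
    · rw [← h0, Real.zero_rpow (by linarith)]
      have : 0 ≤ ∑ c ∈ F, a c ^ e := Finset.sum_nonneg fun c hc => Real.rpow_nonneg (ha c hc) _
      positivity
    · have h4 : (∑ c ∈ F, a c) ^ (1 + (m : ℝ) * κ) = (∑ c ∈ F, a c) ^ κ * (∑ c ∈ F, a c) ^ e := by
        rw [← Real.rpow_add h0]; congr 1; rw [he]; ring
      have h5 : 0 ≤ ∑ c ∈ F, a c ^ e := Finset.sum_nonneg fun c hc => Real.rpow_nonneg (ha c hc) _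
      rw [h4]
      calc (∑ c ∈ F, a c) ^ κ * (∑ c ∈ F, a c) ^ e
          ≤ ((F.card : ℝ) ^ κ * M ^ κ) * ((F.card : ℝ) ^ (e - 1) * ∑ c ∈ F, a c ^ e) :=
            mul_le_mul h3 h1 (by positivity) (by positivity)
        _ = M ^ κ * (F.card : ℝ) ^ (κ * m) * ∑ c ∈ F, a c ^ e := by
            have h6 : (F.card : ℝ) ^ (κ * m) = (F.card : ℝ) ^ κ * (F.card : ℝ) ^ (e - 1) := by
              rw [← Real.rpow_add (by linarith)]; congr 1; rw [he]; ring
            rw [h6]; ring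

theorem exp_insert {R : Finset ℚ} {s : ℚ} (hs : s ∉ R) (κ : ℝ) :
    (1 + (((insert s R).card : ℝ) - 1) * κ : ℝ) = 1 + (R.card : ℝ) * κ := by
  rw [Finset.card_insert_of_notMem hs]; push_cast; ring

theorem stepR (hP : PluStmt) (hCel : CelStmt) (hI : IntStmt) (hCnt : CntStmt)
    {ι : Type*} (u d : ι → ℚ) (T R : Finset ℚ) (s : ℚ) (hsT : s ∉ T) (hsR : s ∉ R)
    (κ : ℝ) (hκ : 0 ≤ κ) (hκ1 : κ < 1) (ih : SR u d T R κ) : SR u d T (insert s R) κ := by
  classical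
  obtain ⟨C1, hC1, ih⟩ := ih
  obtain ⟨C2, hC2⟩ := plu_unif hP (({1} ∪ T.image (fun t => t - s)) ∪ R.image (fun r => r - s))
  obtain ⟨Mc, hMc⟩ : ∃ x : ℕ, x = C1 ^ C1 * (T.card + 1) := ⟨_, rfl⟩
  have hMc1 : 1 ≤ Mc := by
    have : 0 < C1 ^ C1 := pow_pos (by omega) _
    rw [hMc]
    exact Nat.mul_pos this (by omega)
  obtain ⟨E, hE⟩ : ∃ x : ℕ, x = 3 * C2 + 2 * C2 * C1 + 2 * C2 * R.card := ⟨_, rfl⟩
  refine ⟨Mc + E, by omega, ?_⟩
  intro K hK A P N hN hT hR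
  have hK0 : 0 ≤ K := by linarith
  rcases A.eq_empty_or_nonempty with hA | ⟨aA, haA⟩
  · subst hA
    have h1 : (1 + (((insert s R).card : ℝ) - 1) * κ : ℝ) ≠ 0 := by
      rw [exp_insert hsR]
      have : (0 : ℝ) ≤ (R.card : ℝ) * κ := by positivity
      linarith
    have h3 : (((∅ : Finset ι).image d).card : ℝ) = 0 := by
      rw [Finset.image_empty, Finset.card_empty, Nat.cast_zero]
    rw [h3, Real.zero_rpow h1]
    have h4 : (0 : ℝ) ≤ ∏ r ∈ insert s R, ((P r).card : ℝ) ^ κ :=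
      Finset.prod_nonneg fun _ _ => by positivity
    have h5 : (0 : ℝ) ≤ (((Mc + E : ℕ) : ℝ) * K) ^ (Mc + E) :=
      pow_nonneg (mul_nonneg (Nat.cast_nonneg _) hK0) _
    exact mul_nonneg (mul_nonneg h5 hN) h4
  obtain ⟨hP0K, x0, hx0⟩ := hR s (Finset.mem_insert_self _ _)
  set P0 := P s with hP0
  have hp0 := hx0 aA haA
  set p0 := pt u d s aA - x0 with hp0def
  have hne0 : P0.Nonempty := ⟨p0, hp0⟩
  obtain ⟨F, hFD, hcov, hov⟩ := hCel (A.image d) P0 hne0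
  have hf' : ∀ a : ι, ∃ c : ℚ, a ∈ A → c ∈ F ∧ d a - c ∈ P0 - P0 := by
    intro a
    by_cases ha : a ∈ A
    · obtain ⟨c, hc, hc'⟩ := hcov (d a) (Finset.mem_image_of_mem _ ha)
      exact ⟨c, fun _ => ⟨hc, hc'⟩⟩
    · exact ⟨0, fun h => absurd h ha⟩
  choose f hf using hf'
  set F1 : Finset ℚ := A.image f with hF1def
  have hF1 : F1 ⊆ F := by
    intro c hc
    obtain ⟨a, ha, rfl⟩ := Finset.mem_image.1 hc
    exact (hf a ha).1
  set Ac : ℚ → Finset ι := fun c => A.filter (fun a => f a = c) with hAc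
  have hAcmem : ∀ c a, a ∈ Ac c ↔ a ∈ A ∧ f a = c := fun c a => by simp [hAc]
  have hlc' : ∀ c : ℚ, ∃ l : ι, c ∈ F1 → l ∈ Ac c := by
    intro c
    by_cases hc : c ∈ F1
    · obtain ⟨a, ha, rfl⟩ := Finset.mem_image.1 hc
      exact ⟨a, fun _ => (hAcmem _ _).2 ⟨ha, rfl⟩⟩
    · exact ⟨aA, fun h => absurd h hc⟩
  choose lc hlc using hlc'
  -- positions relative to the cells
  have hdc : ∀ c, ∀ a ∈ Ac c, d a - c ∈ Sn 1 P0 := by
    intro c a ha
    obtain ⟨h1, h2⟩ := (hAcmem c a).1 ha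
    rw [Sn_one, ← h2]; exact (hf a h1).2
  have hpos : ∀ (r : ℚ) (c : ℚ), ∀ a ∈ Ac c, pt u d r a - x0 - p0 - (r - s) * c ∈ Wf (r - s) 1 P0 := by
    intro r c a ha
    refine mem_Wf.2 ⟨(pt u d s a - x0) - p0, sub_mem_Sn_one (hx0 a ((hAcmem c a).1 ha).1) hp0,
      d a - c, hdc c a ha, ?_⟩
    simp only [pt]; ring
  have hC2s : ∀ r ∈ R, ∀ (K : ℝ) (P : Finset ℚ), 1 ≤ K → P.Nonempty →
      ((P + P).card : ℝ) ≤ K * P.card → ((Wf (r - s) 5 P).card : ℝ) ≤ K ^ C2 * P.card :=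
    fun r hr => hC2 _ (by
      simp only [Finset.mem_union, Finset.mem_image]; exact Or.inr ⟨r, hr, rfl⟩)
  have hC2t : ∀ t ∈ T, ∀ (K : ℝ) (P : Finset ℚ), 1 ≤ K → P.Nonempty →
      ((P + P).card : ℝ) ≤ K * P.card → ((Wf (t - s) 5 P).card : ℝ) ≤ K ^ C2 * P.card :=
    fun r hr => hC2 _ (by
      simp only [Finset.mem_union, Finset.mem_image]; exact Or.inl (Or.inr ⟨r, hr, rfl⟩))
  have hC21 : ∀ (K : ℝ) (P : Finset ℚ), 1 ≤ K → P.Nonempty →
      ((P + P).card : ℝ) ≤ K * P.card → ((Wf 1 5 P).card : ℝ) ≤ K ^ C2 * P.card :=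
    hC2 1 (by simp)
  have hKp : (1 : ℝ) ≤ K ^ C2 := one_le_pow₀ hK
  have hKp2 : (1 : ℝ) ≤ K ^ (2 * C2) := one_le_pow₀ hK
  -- (1)
  have b1 : ∀ c ∈ F1, (((Ac c).image d).card : ℝ) ≤ K ^ C2 * P0.card := by
    intro c _
    have h1 : ((Ac c).image d).card ≤ (Wf 1 5 P0).card := by
      refine card_le_of_translate c fun y hy => ?_
      obtain ⟨a, ha, rfl⟩ := Finset.mem_image.1 hy
      exact Sn_subset_Wf hne0 5 (Sn_mono hne0 (by norm_num) (hdc c a ha))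
    calc (((Ac c).image d).card : ℝ) ≤ ((Wf 1 5 P0).card : ℝ) := by exact_mod_cast h1
      _ ≤ K ^ C2 * P0.card := hC21 K P0 hK hne0 hP0K
  -- the numbers `N_c`
  set Nc : ℚ → ℝ := fun c => (∑ t ∈ T, (((Ac c).image (pt u d t)).card : ℝ)) with hNc
  have hNc0 : ∀ c, 0 ≤ Nc c := fun c => Finset.sum_nonneg fun _ _ => Nat.cast_nonneg _
  have hRr : ∀ r ∈ R, ((P r + P r).card : ℝ) ≤ K * (P r).card ∧
      ∃ x, ∀ a ∈ A, pt u d r a - x ∈ P r := fun r hr => hR r (Finset.mem_insert_of_mem hr)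
  have hner : ∀ r ∈ R, (P r).Nonempty := fun r hr => by
    obtain ⟨_, x, hx⟩ := hRr r hr
    exact ⟨_, hx aA haA⟩
  -- (2)
  obtain ⟨Q, hQ⟩ : ∃ x : ℝ, x = (C1 * K ^ (2 * C2)) ^ C1 := ⟨_, rfl⟩
  obtain ⟨PT, hPT⟩ : ∃ x : ℝ, x = ∏ r ∈ R, ((Tr (r - s) (P r) P0).card : ℝ) ^ κ := ⟨_, rfl⟩
  obtain ⟨PP, hPP⟩ : ∃ x : ℝ, x = ∏ r ∈ R, ((P r).card : ℝ) ^ κ := ⟨_, rfl⟩
  have hPT0 : 0 ≤ PT := by rw [hPT]; exact Finset.prod_nonneg fun _ _ => by positivity
  have hPP0 : 0 ≤ PP := by rw [hPP]; exact Finset.prod_nonneg fun _ _ => by positivity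
  have b2 : ∀ c ∈ F1, (((Ac c).image d).card : ℝ) ^ (1 + ((R.card : ℝ) - 1) * κ) ≤
      Q * Nc c * PT := by
    intro c hc
    rw [hQ, hPT]
    refine ih (K ^ (2 * C2)) hKp2 (Ac c) (fun r => Tr (r - s) (P r) P0) (Nc c) (hNc0 c) ?_ ?_
    · intro t ht
      exact Finset.single_le_sum (f := fun t => (((Ac c).image (pt u d t)).card : ℝ))
        (fun _ _ => Nat.cast_nonneg _) ht
    · intro r hr
      obtain ⟨hr2, x, hx⟩ := hRr r hr
      refine ⟨?_, pt u d r (lc c), ?_⟩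
      · exact Tr_doubling hI (hner r hr) hne0 (hC21 K (P r) hK (hner r hr) hr2)
          (hC2s r hr K P0 hK hne0 hP0K) hK0
      · intro a ha
        have hl := hlc c hc
        refine Finset.mem_inter.2 ⟨?_, ?_⟩
        · refine Finset.mem_sub.2 ⟨_, hx a ((hAcmem c a).1 ha).1, _,
            hx (lc c) ((hAcmem c _).1 hl).1, by ring⟩
        · exact Finset.mem_sub.2 ⟨_, hpos r c a ha, _, hpos r c _ hl, by ring⟩
  -- (3)
  have b3 : ∀ t ∈ T, ∑ c ∈ F1, (((Ac c).image (pt u d t)).card : ℝ) ≤ K ^ (2 * C2) * N := by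
    intro t ht
    have hts : t - s ≠ 0 := sub_ne_zero.2 (fun h => hsT (h ▸ ht))
    have h1 := hCnt F1 (fun c => (Ac c).image (pt u d t)) (A.image (pt u d t)) (K ^ C2)
      (by positivity) (fun c _ => Finset.image_subset_image (Finset.filter_subset _ _)) ?_
    · refine h1.trans ?_
      exact mul_le_mul (pow_le_pow_right₀ hK (by omega)) (hT t ht) (by positivity)
        (by positivity)
    · intro y _
      refine overlap hts hne0 hF1 hov (hC2t t ht K P0 hK hne0 hP0K) 1 (by norm_num) (y - x0 - p0)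
        (fun c => y ∈ (Ac c).image (pt u d t)) ?_
      intro c _ hy
      obtain ⟨a, ha, rfl⟩ := Finset.mem_image.1 hy
      exact hpos t c a ha
  -- (4)
  have b4 : ∀ r ∈ R, (F1.card : ℝ) * ((Tr (r - s) (P r) P0).card : ℝ) ≤
      K ^ (2 * C2) * (P r).card := by
    intro r hr
    have hrs : r - s ≠ 0 := sub_ne_zero.2 (fun h => hsR (h ▸ hr))
    obtain ⟨hr2, x, hx⟩ := hRr r hr
    have hq := hx aA haA
    set q0 := pt u d r aA - x with hq0
    set G : Finset ℚ := (Wf 1 5 (P r)).image (fun z => x + q0 + z) with hG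
    have hcardB : ∀ c, ((Tr (r - s) (P r) P0).image (fun z => pt u d r (lc c) + z)).card =
        (Tr (r - s) (P r) P0).card := fun c =>
      Finset.card_image_of_injective _ (fun a b h => by simpa using h)
    have h1 := hCnt F1 (fun c => (Tr (r - s) (P r) P0).image (fun z => pt u d r (lc c) + z)) G
      (K ^ C2) (by positivity) ?_ ?_
    · simp only [hcardB, Finset.sum_const, nsmul_eq_mul] at h1
      refine h1.trans ?_
      have h2 : (G.card : ℝ) ≤ K ^ C2 * (P r).card := by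
        calc (G.card : ℝ) ≤ ((Wf 1 5 (P r)).card : ℝ) := by exact_mod_cast Finset.card_image_le
          _ ≤ K ^ C2 * (P r).card := hC21 K (P r) hK (hner r hr) hr2
      calc K ^ C2 * (G.card : ℝ) ≤ K ^ C2 * (K ^ C2 * (P r).card) :=
            mul_le_mul_of_nonneg_left h2 (by positivity)
        _ = K ^ (2 * C2) * (P r).card := by rw [two_mul, pow_add]; ring
    · intro c hc y hy
      obtain ⟨z, hz, rfl⟩ := Finset.mem_image.1 hy
      have hz1 := (Finset.mem_inter.1 hz).1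
      rw [← Sn_one] at hz1
      refine Finset.mem_image.2 ⟨(pt u d r (lc c) - x - q0) + z, ?_, by ring⟩
      have h3 : pt u d r (lc c) - x - q0 ∈ Sn 1 (P r) :=
        sub_mem_Sn_one (hx _ ((hAcmem c _).1 (hlc c hc)).1) hq
      have h4 := add_mem_Sn h3 hz1
      exact Sn_subset_Wf (hner r hr) 5 (Sn_mono (hner r hr) (by norm_num) h4)
    · intro y _
      refine overlap hrs hne0 hF1 hov (hC2s r hr K P0 hK hne0 hP0K) 3 (by norm_num) (y - x0 - p0)
        (fun c => y ∈ (Tr (r - s) (P r) P0).image (fun z => pt u d r (lc c) + z)) ?_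
      intro c hc hy
      obtain ⟨z, hz, rfl⟩ := Finset.mem_image.1 hy
      obtain ⟨w1, hw1, w2, hw2, hz2⟩ := Finset.mem_sub.1 (Finset.mem_inter.1 hz).2
      have h5 := add_mem_Wf (hpos r c _ (hlc c hc)) (sub_mem_Wf hw1 hw2)
      have h6 : pt u d r (lc c) + z - x0 - p0 - (r - s) * c =
          pt u d r (lc c) - x0 - p0 - (r - s) * c + (w1 - w2) := by rw [hz2]; ring
      rw [h6]
      exact Wf_mono hne0 (by norm_num) h5
  -- (5)
  have hC1r : (1 : ℝ) ≤ C1 := by exact_mod_cast hC1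
  have hQ1 : 1 ≤ Q := by rw [hQ]; exact one_le_pow₀ (by nlinarith [hKp2])
  have hQ0 : 0 ≤ Q := by linarith
  have b6 : ((A.image d).card : ℝ) ≤ ∑ c ∈ F1, (((Ac c).image d).card : ℝ) := by
    have h1 : A.image d ⊆ F1.biUnion (fun c => (Ac c).image d) := by
      intro y hy
      obtain ⟨a, ha, rfl⟩ := Finset.mem_image.1 hy
      exact Finset.mem_biUnion.2 ⟨f a, Finset.mem_image_of_mem _ ha,
        Finset.mem_image_of_mem _ ((hAcmem _ _).2 ⟨ha, rfl⟩)⟩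
    have h2 := (Finset.card_le_card h1).trans Finset.card_biUnion_le
    exact_mod_cast h2
  have b7 : ∑ c ∈ F1, Nc c ≤ T.card * (K ^ (2 * C2) * N) := by
    simp only [hNc]
    rw [Finset.sum_comm]
    have h1 := Finset.sum_le_card_nsmul T (fun t => ∑ c ∈ F1, (((Ac c).image (pt u d t)).card : ℝ))
      (K ^ (2 * C2) * N) b3
    simpa only [nsmul_eq_mul] using h1
  have hF1ne : F1.Nonempty := ⟨f aA, Finset.mem_image_of_mem _ haA⟩
  have b8 := combine F1 (fun c => (((Ac c).image d).card : ℝ)) ((A.image d).card : ℝ)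
    (K ^ C2 * P0.card) κ R.card hκ (fun _ _ => Nat.cast_nonneg _) b1 (by positivity)
    (Nat.cast_nonneg _) b6 hF1ne
  obtain ⟨n, hn⟩ : ∃ x : ℝ, x = (F1.card : ℝ) := ⟨_, rfl⟩
  rw [← hn] at b8
  have b4' : ∀ r ∈ R, n * ((Tr (r - s) (P r) P0).card : ℝ) ≤ K ^ (2 * C2) * (P r).card := by
    intro r hr; rw [hn]; exact b4 r hr
  have hn0 : 0 ≤ n := by rw [hn]; exact Nat.cast_nonneg _
  have b9 : n ^ (κ * R.card) * PT ≤ K ^ (2 * C2 * R.card) * PP := by
    have h1 : n ^ (κ * R.card) = ∏ _r ∈ R, n ^ κ := by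
      rw [Finset.prod_const, Real.rpow_mul hn0, Real.rpow_natCast]
    have h2 : (K ^ (2 * C2 * R.card) : ℝ) = ∏ _r ∈ R, K ^ (2 * C2) := by
      rw [Finset.prod_const, ← pow_mul]
    rw [h1, h2, hPT, hPP, ← Finset.prod_mul_distrib, ← Finset.prod_mul_distrib]
    refine Finset.prod_le_prod (fun r _ => by positivity) fun r hr => ?_
    rw [← Real.mul_rpow hn0 (by positivity)]
    calc (n * ((Tr (r - s) (P r) P0).card : ℝ)) ^ κ ≤ (K ^ (2 * C2) * (P r).card) ^ κ :=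
          Real.rpow_le_rpow (by positivity) (b4' r hr) hκ
      _ = (K ^ (2 * C2)) ^ κ * ((P r).card : ℝ) ^ κ := Real.mul_rpow (by positivity) (by positivity)
      _ ≤ K ^ (2 * C2) * ((P r).card : ℝ) ^ κ := by
          refine mul_le_mul_of_nonneg_right ?_ (by positivity)
          calc (K ^ (2 * C2)) ^ κ ≤ (K ^ (2 * C2)) ^ (1 : ℝ) :=
                Real.rpow_le_rpow_of_exponent_le hKp2 hκ1.le
            _ = _ := Real.rpow_one _
  have b10 : (K ^ C2 * (P0.card : ℝ)) ^ κ ≤ K ^ C2 * (P0.card : ℝ) ^ κ := by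
    rw [Real.mul_rpow (by positivity) (by positivity)]
    refine mul_le_mul_of_nonneg_right ?_ (by positivity)
    calc (K ^ C2) ^ κ ≤ (K ^ C2) ^ (1 : ℝ) := Real.rpow_le_rpow_of_exponent_le hKp hκ1.le
      _ = _ := Real.rpow_one _
  have b11 : ∑ c ∈ F1, (((Ac c).image d).card : ℝ) ^ (1 + ((R.card : ℝ) - 1) * κ) ≤
      Q * PT * (T.card * (K ^ (2 * C2) * N)) := by
    calc ∑ c ∈ F1, (((Ac c).image d).card : ℝ) ^ (1 + ((R.card : ℝ) - 1) * κ)
        ≤ ∑ c ∈ F1, Q * Nc c * PT := Finset.sum_le_sum b2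
      _ = Q * PT * ∑ c ∈ F1, Nc c := by rw [Finset.mul_sum]; exact Finset.sum_congr rfl fun c _ => by ring
      _ ≤ Q * PT * (T.card * (K ^ (2 * C2) * N)) :=
          mul_le_mul_of_nonneg_left b7 (mul_nonneg hQ0 hPT0)
  rw [exp_insert hsR, Finset.prod_insert hsR]
  refine b8.trans ?_
  have hs0 : 0 ≤ ∑ c ∈ F1, (((Ac c).image d).card : ℝ) ^ (1 + ((R.card : ℝ) - 1) * κ) :=
    Finset.sum_nonneg fun _ _ => by positivity
  have hQeq : Q = (C1 : ℝ) ^ C1 * K ^ (2 * C2 * C1) := by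
    rw [hQ, mul_pow, ← pow_mul]
  have b12 : (K ^ C2 * (P0.card : ℝ)) ^ κ * n ^ (κ * R.card) *
      ∑ c ∈ F1, (((Ac c).image d).card : ℝ) ^ (1 + ((R.card : ℝ) - 1) * κ) ≤
      ((C1 : ℝ) ^ C1 * T.card) * K ^ E * N * ((P0.card : ℝ) ^ κ * PP) := by
    calc (K ^ C2 * (P0.card : ℝ)) ^ κ * n ^ (κ * R.card) *
          ∑ c ∈ F1, (((Ac c).image d).card : ℝ) ^ (1 + ((R.card : ℝ) - 1) * κ)
        ≤ (K ^ C2 * (P0.card : ℝ) ^ κ) * n ^ (κ * R.card) *
          (Q * PT * (T.card * (K ^ (2 * C2) * N))) := by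
          refine mul_le_mul (mul_le_mul_of_nonneg_right b10 (by positivity)) b11 hs0
            (by positivity)
      _ = (K ^ C2 * (P0.card : ℝ) ^ κ) * Q * (T.card * (K ^ (2 * C2) * N)) *
          (n ^ (κ * R.card) * PT) := by ring
      _ ≤ (K ^ C2 * (P0.card : ℝ) ^ κ) * Q * (T.card * (K ^ (2 * C2) * N)) *
          (K ^ (2 * C2 * R.card) * PP) := mul_le_mul_of_nonneg_left b9 (by positivity)
      _ = ((C1 : ℝ) ^ C1 * T.card) * K ^ E * N * ((P0.card : ℝ) ^ κ * PP) := by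
          rw [hQeq, hE, show 3 * C2 + 2 * C2 * C1 + 2 * C2 * R.card =
            C2 + 2 * C2 + 2 * C2 * C1 + 2 * C2 * R.card by ring, pow_add, pow_add, pow_add]
          ring
  refine b12.trans ?_
  rw [← hPP, ← hP0]
  refine mul_le_mul_of_nonneg_right (mul_le_mul_of_nonneg_right ?_ hN)
    (mul_nonneg (by positivity) hPP0)
  have hMr : (1 : ℝ) ≤ Mc := by exact_mod_cast hMc1
  have hM : (C1 : ℝ) ^ C1 * T.card ≤ Mc := by
    rw [hMc]; push_cast
    exact mul_le_mul_of_nonneg_left (by linarith) (by positivity)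
  calc (C1 : ℝ) ^ C1 * T.card * K ^ E ≤ (Mc : ℝ) * K ^ E :=
        mul_le_mul_of_nonneg_right hM (by positivity)
    _ ≤ ((Mc + E : ℕ) : ℝ) ^ (Mc + E) * K ^ (Mc + E) := by
        refine mul_le_mul ?_ (pow_le_pow_right₀ hK (by omega)) (by positivity) (by positivity)
        calc (Mc : ℝ) ≤ ((Mc + E : ℕ) : ℝ) := by push_cast; linarith [Nat.cast_nonneg (α := ℝ) E]
          _ = ((Mc + E : ℕ) : ℝ) ^ 1 := (pow_one _).symm
          _ ≤ ((Mc + E : ℕ) : ℝ) ^ (Mc + E) :=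
              pow_le_pow_right₀ (by push_cast; linarith [Nat.cast_nonneg (α := ℝ) E]) (by omega)
    _ = (((Mc + E : ℕ) : ℝ) * K) ^ (Mc + E) := by rw [mul_pow]

theorem SR_base {ι : Type*} (u d : ι → ℚ) (T : Finset ℚ) (β : ℝ) (hβ : 0 ≤ β)
    (h : ∃ C : ℝ, ∀ (A : Finset ι) (N : ℝ), 0 ≤ N →
      (∀ t ∈ T, ((A.image (pt u d t)).card : ℝ) ≤ N) →
      ((A.image d).card : ℝ) ≤ C * N ^ (1 + β)) :
    SR u d T ∅ (β / (1 + β)) := by
  obtain ⟨C, hC⟩ := h
  refine ⟨⌈C⌉₊ + 1, by omega, ?_⟩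
  intro K hK A P N hN hT _
  have h0 := hC A N hN hT
  have h1 : C ≤ ((⌈C⌉₊ + 1 : ℕ) : ℝ) := by push_cast; linarith [Nat.le_ceil C]
  have h2 : (1 : ℝ) ≤ ((⌈C⌉₊ + 1 : ℕ) : ℝ) := by
    push_cast; linarith [Nat.cast_nonneg (α := ℝ) ⌈C⌉₊]
  set D : ℝ := ((⌈C⌉₊ + 1 : ℕ) : ℝ) with hD
  have hβ1 : 0 < 1 + β := by linarith
  have hexp : (1 + (((∅ : Finset ℚ).card : ℝ) - 1) * (β / (1 + β)) : ℝ) = 1 / (1 + β) := by
    rw [Finset.card_empty, Nat.cast_zero]; field_simp; ring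
  rw [hexp, Finset.prod_empty, mul_one]
  have h3 : ((A.image d).card : ℝ) ≤ D * N ^ (1 + β) :=
    h0.trans (mul_le_mul_of_nonneg_right h1 (by positivity))
  have h5 : D ≤ D * K := by nlinarith
  calc ((A.image d).card : ℝ) ^ (1 / (1 + β)) ≤ (D * N ^ (1 + β)) ^ (1 / (1 + β)) :=
        Real.rpow_le_rpow (Nat.cast_nonneg _) h3 (by positivity)
    _ = D ^ (1 / (1 + β)) * N := by
        rw [Real.mul_rpow (by linarith) (by positivity), ← Real.rpow_mul hN,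
          mul_one_div_cancel hβ1.ne', Real.rpow_one]
    _ ≤ D * N := by
        refine mul_le_mul_of_nonneg_right ?_ hN
        calc D ^ (1 / (1 + β)) ≤ D ^ (1 : ℝ) :=
              Real.rpow_le_rpow_of_exponent_le h2 (by rw [div_le_one hβ1]; linarith)
          _ = D := Real.rpow_one D
    _ ≤ (D * K) ^ (⌈C⌉₊ + 1) * N := by
        refine mul_le_mul_of_nonneg_right ?_ hN
        calc D ≤ D * K := h5
          _ = (D * K) ^ 1 := (pow_one _).symm
          _ ≤ (D * K) ^ (⌈C⌉₊ + 1) := pow_le_pow_right₀ (h2.trans h5) (by omega)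

theorem forwardR (hP : PluStmt) (hCel : CelStmt) (hI : IntStmt) (hCnt : CntStmt)
    {ι : Type*} (u d : ι → ℚ) (T : Finset ℚ) (β : ℝ) (hβ : 0 ≤ β)
    (h : ∃ C : ℝ, ∀ (A : Finset ι) (N : ℝ), 0 ≤ N →
      (∀ t ∈ T, ((A.image (pt u d t)).card : ℝ) ≤ N) →
      ((A.image d).card : ℝ) ≤ C * N ^ (1 + β)) (R : Finset ℚ) (hR : Disjoint R T) :
    SR u d T R (β / (1 + β)) := by
  classical
  have h1 : 0 ≤ β / (1 + β) := by positivity
  have h2 : β / (1 + β) < 1 := by rw [div_lt_one (by linarith)]; linarith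
  induction R using Finset.induction_on with
  | empty => exact SR_base u d T β hβ h
  | insert s R hs ih =>
    have hd : Disjoint R T := Finset.disjoint_of_subset_left (Finset.subset_insert _ _) hR
    have hsT : s ∉ T := Finset.disjoint_left.1 hR (Finset.mem_insert_self _ _)
    exact stepR hP hCel hI hCnt u d T R s hsT hs _ h1 h2 (ih hd)

end Pool.SPJ
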