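import Pool.Agent.H93.SPJ.Alg

/-! one structured projection: the induction step -/

open scoped Pointwise

namespace Pool.SPJ

theorem plu_unif (hP : PluStmt) (S : Finset ℚ) :
    ∃ C : ℕ, ∀ c ∈ S, ∀ (K : ℝ) (P : Finset ℚ), 1 ≤ K → P.Nonempty →
      ((P + P).card : ℝ) ≤ K * P.card → ((Wf c 5 P).card : ℝ) ≤ K ^ C * P.card := by
  choose f hf using fun c => hP c 5
  refine ⟨∑ c ∈ S, f c, fun c hc K P hK hne h => (hf c K P hK hne h).trans ?_⟩
  exact mul_le_mul_of_nonneg_right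
    (pow_le_pow_right₀ hK (Finset.single_le_sum (f := f) (fun _ _ => Nat.zero_le _) hc))
    (Nat.cast_nonneg _)

/-- the bound with structured projections at the times of `R`, with exponent `e` -/
def SB {ι : Type*} (u d : ι → ℚ) (T R : Finset ℚ) (e : ℝ) : Prop :=
  ∃ C : ℕ, 1 ≤ C ∧ ∀ K : ℝ, 1 ≤ K → ∀ (A : Finset ι) (P : ℚ → Finset ℚ) (N : ℝ), 0 ≤ N →
    (∀ t ∈ T, ((A.image (pt u d t)).card : ℝ) ≤ N) →
    (∀ r ∈ R, ((P r).card : ℝ) ≤ N ∧ ((P r + P r).card : ℝ) ≤ K * (P r).card ∧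
      ∃ x, ∀ a ∈ A, pt u d r a - x ∈ P r) →
    ((A.image d).card : ℝ) ≤ (C * K) ^ C * N ^ e

/-- number of cells over a point -/
theorem overlap {F F1 P0 : Finset ℚ} {e : ℚ} {K : ℝ} {C : ℕ} (he : e ≠ 0) (hne : P0.Nonempty)
    (hF1 : F1 ⊆ F)
    (hov : ∀ (c y : ℚ) (E : Finset ℚ), c ≠ 0 →
      (F.filter (fun a => y - c * a ∈ E)).card * P0.card ≤ (E + P0.image (fun p => -c * p)).card)
    (hC : ((Wf e 5 P0).card : ℝ) ≤ K ^ C * P0.card) (n : ℕ) (hn : n ≤ 4) (y : ℚ)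
    (Q : ℚ → Prop) [DecidablePred Q] (hQ : ∀ c ∈ F1, Q c → y - e * c ∈ Wf e n P0) :
    ((F1.filter Q).card : ℝ) ≤ K ^ C := by
  obtain ⟨p0, hp0⟩ := hne
  have hpos : (0 : ℝ) < P0.card := by exact_mod_cast Finset.card_pos.2 ⟨p0, hp0⟩
  have h1 : (F1.filter Q).card ≤ (F.filter (fun a => y - e * a ∈ Wf e n P0)).card := by
    refine Finset.card_le_card fun c hc => ?_
    rw [Finset.mem_filter] at hc ⊢
    exact ⟨hF1 hc.1, hQ c hc.1 hc.2⟩
  have h2 := hov e y (Wf e n P0) he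
  have h3 : (Wf e n P0 + P0.image (fun p => -e * p)).card ≤ (Wf e 5 P0).card := by
    refine card_le_of_translate (-e * p0) fun z hz => ?_
    obtain ⟨w, hw, v, hv, rfl⟩ := Finset.mem_add.1 hz
    obtain ⟨p, hp, rfl⟩ := Finset.mem_image.1 hv
    have : w + -e * p - -e * p0 = w + e * (p0 - p) := by ring
    rw [this]
    have h4 := add_mem_Wf hw (mul_mem_Wf (c := e) ⟨p0, hp0⟩ (sub_mem_Sn_one hp0 hp))
    exact Wf_mono ⟨p0, hp0⟩ (by omega) h4
  have h5 : ((F1.filter Q).card : ℝ) * P0.card ≤ K ^ C * P0.card := by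
    refine le_trans ?_ hC
    exact_mod_cast (Nat.mul_le_mul_right _ h1).trans (h2.trans h3)
  exact le_of_mul_le_mul_right h5 hpos

theorem card_Sn_le {P : Finset ℚ} (hne : P.Nonempty) (c : ℚ) (n : ℕ) (hn : n ≤ 5) :
    (Sn n P).card ≤ (Wf c 5 P).card :=
  Finset.card_le_card ((Sn_mono hne hn).trans (Sn_subset_Wf hne 5))

end Pool.SPJ
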